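import Mathlib
import Pool.Agent.Helper5.CR.Core

/-!
# Directed cycle decompositions of planar digraphs, and plane graphs

Combinatorial maps, the number `nc` of cycles of a permutation and Euler's formula `Planar`
are taken from `Pool.Agent.Helper5.CR.Core`.
-/

open Equiv Equiv.Perm Helper5.CR

namespace Helper5.DCD

/-- The involution exchanging the two halves `(a, false)` and `(a, true)` of every `a`. -/
def flip (α : Type) : Perm (α × Bool) := (Equiv.refl α).prodCongr Equiv.boolNot

/-- A finite directed multigraph with the vertices `0, ..., n - 1`, given by the list of its arcs
`(tail, head)` (parallel arcs are repeated), together with a number `k`. -/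
structure DInst where
  n : ℕ
  arcs : List (Fin n × Fin n)
  k : ℕ

namespace DInst

variable (D : DInst)

/-- the tail of the `j`-th arc -/
def tail (j : Fin D.arcs.length) : Fin D.n := (D.arcs.get j).1

/-- the head of the `j`-th arc -/
def head (j : Fin D.arcs.length) : Fin D.n := (D.arcs.get j).2

/-- no arc is a loop -/
def Loopless : Prop := ∀ j, D.tail j ≠ D.head j

/-- the number of arcs leaving `v` -/
noncomputable def outdeg (v : Fin D.n) : ℕ := Nat.card {j // D.tail j = v}

/-- the number of arcs entering `v` -/
noncomputable def indeg (v : Fin D.n) : ℕ := Nat.card {j // D.head j = v}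

/-- in-degree and out-degree agree at every vertex -/
def Eulerian : Prop := ∀ v, D.indeg v = D.outdeg v

/-- the vertex of a half-arc: `(j, false)` is the half of the arc `j` at its tail, `(j, true)` the
half at its head -/
def pt (h : Fin D.arcs.length × Bool) : Fin D.n := if h.2 then D.head h.1 else D.tail h.1

/-- The underlying multigraph is planar: the half-arcs at every vertex can be ordered cyclically
(the cycles of `ρ`) so that the resulting combinatorial map satisfies Euler's formula, i.e. all its
components have genus zero. -/
def IsPlanar : Prop :=
  ∃ ρ : Perm (Fin D.arcs.length × Bool), (∀ h h', ρ.SameCycle h h' ↔ D.pt h = D.pt h') ∧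
    Planar ρ (flip (Fin D.arcs.length))

/-- The arcs in the list `l`, in this order, form a directed cycle: there are at least two, their
tails are pairwise distinct, and the head of each arc is the tail of the (cyclically) next one. -/
def IsDicycle (l : List (Fin D.arcs.length)) : Prop :=
  2 ≤ l.length ∧ (l.map D.tail).Nodup ∧ l.map D.head = (l.map D.tail).rotate 1

/-- `L` is a directed cycle decomposition: every arc belongs to exactly one of the cycles. -/
def IsDecomp (L : List (List (Fin D.arcs.length))) : Prop :=
  (∀ l ∈ L, D.IsDicycle l) ∧ L.flatten.Perm (List.finRange D.arcs.length)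

/-- the digraph has a directed cycle decomposition with at most `k` cycles -/
def Yes : Prop := ∃ L, D.IsDecomp L ∧ L.length ≤ D.k

/-- Binary code: for every arc a `1` followed by tail and head, each in unary and closed by a `0`;
then a `0`, the number of vertices in unary, a `0`, and `k` in unary. -/
def code : List Bool :=
  D.arcs.flatMap (fun a => true :: (List.replicate a.1 true ++ false ::
    (List.replicate a.2 true ++ [false]))) ++
    false :: (List.replicate D.n true ++ false :: List.replicate D.k true)

end DInst

/-- A plane multigraph with minimum degree at least two and at least three vertices, given by its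
rotation system: the edges are `0, ..., m - 1`, the edge `i` has the two halves `(i, false)` and
`(i, true)`, the cycles of `σ` are the vertices, with the cyclic order of the half-edges around
them, and Euler's formula holds. -/
structure PlaneGraph where
  m : ℕ
  σ : Perm (Fin m × Bool)
  planar : Planar σ (flip (Fin m))
  deg : ∀ d, σ d ≠ d
  three : 3 ≤ nc σ

namespace PlaneGraph

variable (G : PlaneGraph)

/-- the vertices: the cycles of `σ` -/
def V : Type := Quotient (SameCycle.setoid G.σ)

instance : Finite G.V := inferInstanceAs (Finite (Quotient (SameCycle.setoid G.σ)))

noncomputable instance : Fintype G.V := Fintype.ofFinite _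

noncomputable instance : DecidableEq G.V := Classical.decEq _

/-- the vertex of a half-edge -/
def vtx (d : Fin G.m × Bool) : G.V := Quotient.mk (SameCycle.setoid G.σ) d

/-- the underlying simple graph -/
def graph : SimpleGraph G.V where
  Adj v w := v ≠ w ∧ ∃ i s, G.vtx (i, s) = v ∧ G.vtx (i, !s) = w
  symm := ⟨by
    rintro v w ⟨h, i, s, h1, h2⟩
    exact ⟨h.symm, i, !s, h2, by simpa using h1⟩⟩
  loopless := ⟨fun v h => h.1 rfl⟩

/-- Binary code: for every edge `i` a `1` followed by the two half-edges `σ (i, false)` and
`σ (i, true)`, where the half-edge `(j, s)` is coded by `j` in unary, a `0` and the bit `s`; at the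
end a `0`. -/
def code : List Bool :=
  (List.finRange G.m).flatMap (fun i => true ::
    ((List.replicate (G.σ (i, false)).1 true ++ [false, (G.σ (i, false)).2]) ++
      (List.replicate (G.σ (i, true)).1 true ++ [false, (G.σ (i, true)).2]))) ++ [false]

end PlaneGraph

end Helper5.DCD
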