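import Pool.Agent.Helper5.DCD.Red
import Pool.Agent.Helper5.CR.M2

/-!
# Euler's formula for subsets of the edges of a plane graph
-/

open Equiv Equiv.Perm Helper5.CR

namespace Helper5.DCD

section
variable {E : Type} [Fintype E] [DecidableEq E]

theorem flipOn_swap {F : Set E} {e : E} (he : e ∉ F) :
    flipOn (insert e F) = flipOn F * swap (e, false) (e, true) := by
  ext1 ⟨x, s⟩
  rw [Perm.mul_apply]
  by_cases hx : x = e
  · subst hx
    rw [flipOn_of_mem (Set.mem_insert _ _)]
    cases s
    · rw [swap_apply_left, flipOn_of_notMem he]; rfl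
    · rw [swap_apply_right, flipOn_of_notMem he]; rfl
  · have h1 : (x, s) ≠ (e, false) := fun h => hx (congrArg Prod.fst h)
    have h2 : (x, s) ≠ (e, true) := fun h => hx (congrArg Prod.fst h)
    rw [swap_apply_of_ne_of_ne h1 h2]
    by_cases hF : x ∈ F
    · rw [flipOn_of_mem (Set.mem_insert_of_mem _ hF), flipOn_of_mem hF]
    · rw [flipOn_of_notMem (by simp [hx, hF]), flipOn_of_notMem hF]

theorem flipOn_not_same {F : Set E} {e : E} (he : e ∉ F) (s : Bool) {x : E × Bool}
    (h : (flipOn F).SameCycle (e, s) x) : x = (e, s) := by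
  obtain ⟨n, hn⟩ := h.exists_nat_pow_eq
  have h1 : ∀ n : ℕ, ((flipOn F) ^ n) (e, s) = (e, s) := by
    intro n
    induction n with
    | zero => rfl
    | succ n ih => rw [pow_succ', Perm.mul_apply, ih, flipOn_of_notMem he]
  rw [h1] at hn
  exact hn.symm

theorem flipOn_not_same' {F : Set E} {e : E} (he : e ∉ F) :
    ¬ (flipOn F).SameCycle (e, false) (e, true) := by
  intro h
  have := flipOn_not_same he false h
  simp at this

theorem flipOn_invol (F : Set E) (x : E × Bool) : flipOn F (flipOn F x) = x := by
  rcases x with ⟨e, s⟩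
  by_cases h : e ∈ F
  · rw [flipOn_of_mem h, flipOn_of_mem h]; simp
  · rw [flipOn_of_notMem h, flipOn_of_notMem h]

theorem flipOn_empty : flipOn (∅ : Set E) = 1 := by
  ext1 ⟨x, s⟩
  rw [flipOn_of_notMem (by simp)]; rfl

/-- removing edges keeps a graph plane -/
theorem planar_mono {σ : Perm (E × Bool)} {F F' : Set E} (h : Planar (flipOn F') σ)
    (hF : F ⊆ F') : Planar (flipOn F) σ := by
  classical
  induction hn : (F' \ F).ncard generalizing F' with
  | zero =>
    rw [Set.ncard_eq_zero, Set.sdiff_eq_empty] at hn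
    rwa [Set.Subset.antisymm hF hn]
  | succ n ih =>
    obtain ⟨e, he⟩ : (F' \ F).Nonempty := by
      rw [← Set.ncard_pos]; omega
    have hins : insert e (F' \ {e}) = F' := Set.insert_sdiff_self_of_mem he.1
    have hne : e ∉ F' \ {e} := by simp
    have h1 : Planar (flipOn (F' \ {e})) σ := by
      have h2 := flipOn_swap hne
      rw [hins] at h2
      have h3 : flipOn (F' \ {e}) = flipOn F' * swap (e, false) (e, true) := by
        rw [h2, mul_assoc, swap_mul_self, mul_one]
      rw [h3]
      refine h.split (by simp) ⟨1, ?_⟩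
      rw [zpow_one, flipOn_of_mem he.1]; rfl
    refine ih h1 ?_ ?_
    · intro x hx
      refine ⟨hF hx, ?_⟩
      rintro rfl
      exact he.2 hx
    · have : F' \ F = insert e ((F' \ {e}) \ F) := by
        ext x
        by_cases hx : x = e
        · subst hx; simp [he.1, he.2]
        · simp [hx]
      rw [this, Set.ncard_insert_of_notMem (by simp)] at hn
      omega

theorem sg_inv_same {σ : Perm (E × Bool)} {F : Set E} {x : E × Bool} (hx : flipOn F x = x) :
    (flipOn F * σ).SameCycle (σ⁻¹ x) x := ⟨1, by simp [hx]⟩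

/-- the effect of one more edge -/
theorem step {σ : Perm (E × Bool)} {F : Set E} {e : E} (he : e ∉ F)
    (h : Planar (flipOn (insert e F)) σ) :
    ((flipOn F * σ).SameCycle (e, false) (e, true) ↔
      comp (flipOn F) σ (e, false) (e, true)) ∧
    ((flipOn (insert e F) * σ).SameCycle (e, false) (e, true) ↔
      ¬ comp (flipOn F) σ (e, false) (e, true)) := by
  have hF : Planar (flipOn F) σ := planar_mono h (Set.subset_insert _ _)
  have hx := flipOn_of_notMem he false
  have hy := flipOn_of_notMem he true
  have hsame : (flipOn F * σ).SameCycle (σ⁻¹ (e, false)) (σ⁻¹ (e, true)) ↔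
      (flipOn F * σ).SameCycle (e, false) (e, true) :=
    ⟨fun h => ((sg_inv_same hx).symm.trans h).trans (sg_inv_same hy),
      fun h => ((sg_inv_same hx).trans h).trans (sg_inv_same hy).symm⟩
  have hswap : flipOn (insert e F) * σ =
      flipOn F * σ * swap (σ⁻¹ (e, false)) (σ⁻¹ (e, true)) := by
    rw [flipOn_swap he, phi_swap]
  have hne : σ⁻¹ (e, false) ≠ σ⁻¹ (e, true) := fun h => by simpa using σ⁻¹.injective h
  have hnew : (flipOn (insert e F) * σ).SameCycle (σ⁻¹ (e, false)) (σ⁻¹ (e, true)) ↔
      (flipOn (insert e F) * σ).SameCycle (e, false) (e, true) := by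
    have h1 : (flipOn (insert e F) * σ).SameCycle (σ⁻¹ (e, false)) (e, true) :=
      ⟨1, by simp [flipOn_of_mem (Set.mem_insert e F)]⟩
    have h2 : (flipOn (insert e F) * σ).SameCycle (σ⁻¹ (e, true)) (e, false) :=
      ⟨1, by simp [flipOn_of_mem (Set.mem_insert e F)]⟩
    exact ⟨fun h => ((h2.symm.trans h.symm).trans h1), fun h => (h1.trans h.symm).trans h2.symm⟩
  have h' := h
  unfold Planar at hF h'
  rw [flipOn_swap he] at h'
  rcases merge_formula (α := σ) (flipOn_not_same' he) with h1 | h1 | h1 <;>
    obtain ⟨e0, e4, e1, e2, e3⟩ := h1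
  · refine ⟨iff_of_true (hsame.1 e4) e0, iff_of_false ?_ (not_not.2 e0)⟩
    rw [← hnew, hswap]
    exact not_sameCycle_mul_swap hne e4
  · omega
  · refine ⟨iff_of_false (fun h => e4 (hsame.2 h)) e0, iff_of_true ?_ e0⟩
    rw [← hnew, hswap]
    exact sameCycle_mul_swap_self e4

theorem nc_flipOn (F : Set E) : nc (flipOn F) + Nat.card F = Nat.card (E × Bool) := by
  classical
  induction hn : F.ncard generalizing F with
  | zero =>
    rw [Set.ncard_eq_zero] at hn
    subst hn
    rw [flipOn_empty, nc_one]; simp
  | succ n ih =>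
    obtain ⟨e, he⟩ : F.Nonempty := by
      rw [← Set.ncard_pos]; omega
    have hins : insert e (F \ {e}) = F := Set.insert_sdiff_self_of_mem he
    have hne : e ∉ F \ {e} := by simp
    have hcard : (F \ {e}).ncard = n := by
      rw [← hins, Set.ncard_insert_of_notMem hne] at hn
      omega
    have h1 := ih _ hcard
    have h2 := nc_mul_swap_of_not (flipOn_not_same' hne)
    rw [← flipOn_swap hne, hins] at h2
    rw [Nat.card_coe_set_eq] at h1 ⊢
    omega

/-- Euler's formula for the subgraph with the edges `F` -/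
theorem euler {σ : Perm (E × Bool)} (h : Planar σ (flip E)) (F : Set E) :
    nc (flipOn F * σ) + nc σ = 2 * ncomp σ (flipOn F) + Nat.card F := by
  have h1 : Planar (flipOn F) σ := by
    refine planar_mono (F' := Set.univ) ?_ (Set.subset_univ _)
    rw [flipOn_univ]
    exact h.symm
  have h2 := nc_flipOn F
  unfold Planar at h1
  have h3 : ncomp (flipOn F) σ = ncomp σ (flipOn F) := by
    unfold ncomp comp; rw [sup_comm]
  rw [h3] at h1
  omega

theorem comp_comm (σ α : Perm (E × Bool)) : comp α σ = comp σ α := by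
  unfold comp; rw [sup_comm]

theorem same_of_notMem {σ : Perm (E × Bool)} (h : Planar σ (flip E)) {F : Set E} {e : E}
    (he : e ∉ F) : (flipOn F * σ).SameCycle (e, false) (e, true) ↔
      comp σ (flipOn F) (e, false) (e, true) := by
  have h1 : Planar (flipOn (insert e F)) σ := by
    refine planar_mono (F' := Set.univ) ?_ (Set.subset_univ _)
    rw [flipOn_univ]
    exact h.symm
  rw [← comp_comm]
  exact (step he h1).1

theorem same_of_mem {σ : Perm (E × Bool)} (h : Planar σ (flip E)) {F : Set E} {e : E}
    (he : e ∈ F) : (flipOn F * σ).SameCycle (e, false) (e, true) ↔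
      ¬ comp σ (flipOn (F \ {e})) (e, false) (e, true) := by
  have hins : insert e (F \ {e}) = F := Set.insert_sdiff_self_of_mem he
  have hne : e ∉ F \ {e} := by simp
  have h1 : Planar (flipOn (insert e (F \ {e}))) σ := by
    refine planar_mono (F' := Set.univ) ?_ (Set.subset_univ _)
    rw [flipOn_univ]
    exact h.symm
  have h2 := (step hne h1).2
  rw [hins, comp_comm] at h2
  exact h2

end

end Helper5.DCD
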