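import Pool.Agent.Helper5.DCD.Euler

/-!
# From sets of edges of `H` to sets of edges of `G`
-/

open Equiv Equiv.Perm Helper5.CR

namespace Helper5.DCD

section
variable {m : ℕ}

/-- projection of the half-edges of `H` to those of `G` -/
def pr (x : (Fin m × Fin 3) × Bool) : Fin m × Bool := (x.1.1, decide (x.1.2 = 2 ∧ x.2 = false))

/-- `x` is attached to the old vertices -/
def Att (T : Set (Fin m)) (x : (Fin m × Fin 3) × Bool) : Prop := x.2 = false ∨ x.1.1 ∈ T

theorem sg_0f (σ : Perm (Fin m × Bool)) (i : Fin m) : sg σ ((i, 0), false) = ((i, 1), false) := rfl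
theorem sg_1f (σ : Perm (Fin m × Bool)) (i : Fin m) :
    sg σ ((i, 1), false) = (fst3 (σ (i, false)), false) := rfl
theorem sg_2f (σ : Perm (Fin m × Bool)) (i : Fin m) :
    sg σ ((i, 2), false) = (fst3 (σ (i, true)), false) := rfl
theorem sg_0t (σ : Perm (Fin m × Bool)) (i : Fin m) : sg σ ((i, 0), true) = ((i, 2), true) := rfl
theorem sg_1t (σ : Perm (Fin m × Bool)) (i : Fin m) : sg σ ((i, 1), true) = ((i, 0), true) := rfl
theorem sg_2t (σ : Perm (Fin m × Bool)) (i : Fin m) : sg σ ((i, 2), true) = ((i, 1), true) := rfl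
theorem sg_lst (σ : Perm (Fin m × Bool)) (d : Fin m × Bool) :
    sg σ (lst3 d, false) = (fst3 (σ d), false) := sgfun_lst σ d

theorem pr_fst (d : Fin m × Bool) : pr (fst3 d, false) = d := by
  rcases d with ⟨i, _ | _⟩ <;> rfl

/-- the components of the subgraph of `H` -/
def R (r : Setoid (Fin m × Bool)) (T : Set (Fin m)) : Setoid ((Fin m × Fin 3) × Bool) where
  r x y := (Att T x ∧ Att T y ∧ r (pr x) (pr y)) ∨ (¬ Att T x ∧ ¬ Att T y ∧ x.1.1 = y.1.1)
  iseqv := by
    refine ⟨fun x => ?_, ?_, ?_⟩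
    · by_cases h : Att T x
      · exact Or.inl ⟨h, h, r.refl _⟩
      · exact Or.inr ⟨h, h, rfl⟩
    · rintro x y (⟨h1, h2, h3⟩ | ⟨h1, h2, h3⟩)
      · exact Or.inl ⟨h2, h1, r.symm h3⟩
      · exact Or.inr ⟨h2, h1, h3.symm⟩
    · rintro x y z (⟨h1, h2, h3⟩ | ⟨h1, h2, h3⟩) (⟨h4, h5, h6⟩ | ⟨h4, h5, h6⟩)
      · exact Or.inl ⟨h1, h5, r.trans h3 h6⟩
      · exact absurd h2 h4
      · exact absurd h4 h2
      · exact Or.inr ⟨h1, h5, h3.trans h6⟩

theorem R_iff (r : Setoid (Fin m × Bool)) (T : Set (Fin m)) (x y : (Fin m × Fin 3) × Bool) :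
    R r T x y ↔ (Att T x ∧ Att T y ∧ r (pr x) (pr y)) ∨
      (¬ Att T x ∧ ¬ Att T y ∧ x.1.1 = y.1.1) := Iff.rfl

/-- `F` comes from the sets `S ⊆ T` -/
structure Sat (F : Set (Fin m × Fin 3)) (S T : Set (Fin m)) : Prop where
  h0 : ∀ i, (i, 0) ∈ F ↔ i ∈ T
  h1 : ∀ i, (i, 1) ∈ F ↔ i ∈ T
  h2 : ∀ i, (i, 2) ∈ F ↔ i ∈ S
  hST : S ⊆ T

theorem comp_step_left {D : Type} (σ α : Perm D) (x : D) : comp σ α x (σ x) :=
  comp_of_sigma' σ α x
where
  comp_of_sigma' {D : Type} (σ α : Perm D) (x : D) : comp σ α x (σ x) :=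
    (le_sup_left : SameCycle.setoid σ ≤ comp σ α) ⟨1, by simp⟩

theorem comp_step_right {D : Type} (σ α : Perm D) (x : D) : comp σ α x (α x) :=
  (le_sup_right : SameCycle.setoid α ≤ comp σ α) ⟨1, by simp⟩

theorem comp_le_of {D : Type} [Fintype D] [DecidableEq D] {σ α : Perm D} {r : Setoid D}
    (h1 : ∀ x, r x (σ x)) (h2 : ∀ x, r x (α x)) : comp σ α ≤ r :=
  sup_le (fun _ _ h => sameCycle_of_forall r h1 h) (fun _ _ h => sameCycle_of_forall r h2 h)

theorem comp_sg (σ : Perm (Fin m × Bool)) {F : Set (Fin m × Fin 3)} {S T : Set (Fin m)}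
    (hF : Sat F S T) : comp (sg σ) (flipOn F) = R (comp σ (flipOn S)) T := by
  apply le_antisymm
  · apply comp_le_of
    · rintro ⟨⟨i, j⟩, s⟩
      fin_cases j <;> cases s
      · exact Or.inl ⟨Or.inl rfl, Or.inl rfl, (comp σ (flipOn S)).refl _⟩
      · by_cases h : i ∈ T
        · exact Or.inl ⟨Or.inr h, Or.inr h, (comp σ (flipOn S)).refl _⟩
        · exact Or.inr ⟨by simp [Att, h], by simp [Att, h, sg_0t], rfl⟩
      · refine Or.inl ⟨Or.inl rfl, Or.inl rfl, ?_⟩
        change comp σ (flipOn S) (i, false) (pr (fst3 (σ (i, false)), false))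
        rw [pr_fst]
        exact comp_step_left _ _ _
      · by_cases h : i ∈ T
        · exact Or.inl ⟨Or.inr h, Or.inr h, (comp σ (flipOn S)).refl _⟩
        · exact Or.inr ⟨by simp [Att, h], by simp [Att, h, sg_1t], rfl⟩
      · refine Or.inl ⟨Or.inl rfl, Or.inl rfl, ?_⟩
        change comp σ (flipOn S) (i, true) (pr (fst3 (σ (i, true)), false))
        rw [pr_fst]
        exact comp_step_left _ _ _
      · by_cases h : i ∈ T
        · exact Or.inl ⟨Or.inr h, Or.inr h, (comp σ (flipOn S)).refl _⟩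
        · exact Or.inr ⟨by simp [Att, h], by simp [Att, h, sg_2t], rfl⟩
    · rintro ⟨⟨i, j⟩, s⟩
      by_cases hF' : (i, j) ∈ F
      · rw [flipOn_of_mem hF']
        have hT : i ∈ T := by
          fin_cases j
          · exact (hF.h0 i).1 hF'
          · exact (hF.h1 i).1 hF'
          · exact hF.hST ((hF.h2 i).1 hF')
        refine Or.inl ⟨Or.inr hT, Or.inr hT, ?_⟩
        fin_cases j
        · exact (comp σ (flipOn S)).refl _
        · exact (comp σ (flipOn S)).refl _
        · have hS : i ∈ S := (hF.h2 i).1 hF'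
          cases s
          · change comp σ (flipOn S) (i, true) (i, false)
            have := comp_step_right σ (flipOn S) (i, true)
            rwa [flipOn_of_mem hS] at this
          · change comp σ (flipOn S) (i, false) (i, true)
            have := comp_step_right σ (flipOn S) (i, false)
            rwa [flipOn_of_mem hS] at this
      · rw [flipOn_of_notMem hF']
  · -- the other direction
    set c := comp (sg σ) (flipOn F) with hc
    have e1 : ∀ x, c x (sg σ x) := comp_step_left _ _
    have e2 : ∀ {e : Fin m × Fin 3} (s : Bool), e ∈ F → c (e, s) (e, !s) := by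
      intro e s he
      have := comp_step_right (sg σ) (flipOn F) (e, s)
      rwa [flipOn_of_mem he] at this
    have w : ∀ i (j : Fin 3), c ((i, j), true) ((i, 0), true) := by
      intro i j
      have a1 := e1 ((i, 1), true)
      have a2 := e1 ((i, 2), true)
      rw [sg_1t] at a1
      rw [sg_2t] at a2
      fin_cases j
      · exact c.refl _
      · exact a1
      · exact c.trans a2 a1
    have b : ∀ d : Fin m × Bool, c (fst3 d, false) (lst3 d, false) := by
      rintro ⟨i, _ | _⟩
      · have := e1 ((i, 0), false)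
        rwa [sg_0f] at this
      · exact c.refl _
    have hr : ∀ d d', comp σ (flipOn S) d d' → c (fst3 d, false) (fst3 d', false) := by
      intro d d' h
      have hle : comp σ (flipOn S) ≤ c.comap (fun d => (fst3 d, false)) := by
        apply comp_le_of
        · intro d
          change c (fst3 d, false) (fst3 (σ d), false)
          have := e1 (lst3 d, false)
          rw [sg_lst] at this
          exact c.trans (b d) this
        · rintro ⟨i, s⟩
          change c (fst3 (i, s), false) (fst3 (flipOn S (i, s)), false)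
          by_cases hS : i ∈ S
          · rw [flipOn_of_mem hS]
            have h0 : (i, (0 : Fin 3)) ∈ F := (hF.h0 i).2 (hF.hST hS)
            have h2 : (i, (2 : Fin 3)) ∈ F := (hF.h2 i).2 hS
            have key : c ((i, 0), false) ((i, 2), false) :=
              c.trans (e2 false h0) (c.trans (c.symm (w i 2)) (e2 true h2))
            cases s
            · exact key
            · exact c.symm key
          · rw [flipOn_of_notMem hS]
      exact hle h
    have ha : ∀ x, Att T x → c x (fst3 (pr x), false) := by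
      rintro ⟨⟨i, j⟩, s⟩ h
      cases s
      · fin_cases j
        · exact c.refl _
        · exact c.symm (b (i, false))
        · exact c.refl _
      · have hT : i ∈ T := by
          rcases h with h | h
          · exact absurd h (by simp)
          · exact h
        have hp : (fst3 (pr ((i, j), true)) : Fin m × Fin 3) = (i, 0) := by simp [pr, fst3]
        rw [hp]
        exact c.trans (w i j) (e2 true ((hF.h0 i).2 hT))
    intro x y hxy
    rcases hxy with ⟨h1, h2, h3⟩ | ⟨h1, h2, h3⟩
    · exact c.trans (ha x h1) (c.trans (hr _ _ h3) (c.symm (ha y h2)))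
    · rcases x with ⟨⟨i, j⟩, s⟩
      rcases y with ⟨⟨i', j'⟩, s'⟩
      simp only [Att, not_or, Bool.not_eq_false] at h1 h2
      obtain ⟨rfl, _⟩ := h1
      obtain ⟨rfl, _⟩ := h2
      change i = i' at h3
      subst h3
      exact c.trans (w i j) (c.symm (w i j'))

theorem card_R (r : Setoid (Fin m × Bool)) (T : Set (Fin m)) :
    Nat.card (Quotient (R r T)) + Nat.card T = Nat.card (Quotient r) + m := by
  classical
  have e : Quotient (R r T) ≃ Quotient r ⊕ {i // i ∉ T} := by
    refine Equiv.ofBijective (Quotient.lift (fun x => if h : Att T x then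
      Sum.inl (Quotient.mk r (pr x)) else Sum.inr ⟨x.1.1, fun hT => h (Or.inr hT)⟩) ?_) ⟨?_, ?_⟩
    · rintro x y (⟨h1, h2, h3⟩ | ⟨h1, h2, h3⟩)
      · simp only [h1, h2, dif_pos]
        exact congrArg Sum.inl (Quotient.sound h3)
      · simp only [h1, h2, dif_neg, not_false_eq_true]
        exact congrArg Sum.inr (Subtype.ext h3)
    · intro a b
      refine Quotient.inductionOn₂ a b fun x y h => ?_
      simp only [Quotient.lift_mk] at h
      apply Quotient.sound
      by_cases h1 : Att T x <;> by_cases h2 : Att T y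
      · simp only [h1, h2, dif_pos, Sum.inl.injEq] at h
        exact Or.inl ⟨h1, h2, Quotient.exact h⟩
      · simp [h1, h2] at h
      · simp [h1, h2] at h
      · simp only [h1, h2, dif_neg, not_false_eq_true, Sum.inr.injEq, Subtype.mk.injEq] at h
        exact Or.inr ⟨h1, h2, h⟩
    · rintro (q | ⟨i, hi⟩)
      · refine Quotient.inductionOn q fun d => ⟨Quotient.mk _ (fst3 d, false), ?_⟩
        have : Att T (fst3 d, false) := Or.inl rfl
        simp only [Quotient.lift_mk, this, dif_pos, pr_fst]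
      · refine ⟨Quotient.mk _ ((i, 0), true), ?_⟩
        have : ¬ Att T ((i, 0), true) := by simp [Att, hi]
        simp only [Quotient.lift_mk, this, dif_neg, not_false_eq_true]
  rw [Nat.card_congr e, Nat.card_sum]
  have h2 : Nat.card {i // i ∉ T} + Nat.card T = m := by
    have := Fintype.card_subtype_compl (fun i => i ∈ T)
    have h3 := Fintype.card_subtype_le (fun i => i ∈ T)
    rw [Fintype.card_fin] at this h3
    rw [Nat.card_eq_fintype_card, Nat.card_eq_fintype_card]
    have h4 : Fintype.card T = Fintype.card {x // x ∈ T} := rfl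
    rw [h4]
    omega
  omega

theorem comp_one (σ : Perm (Fin m × Bool)) : comp σ 1 = SameCycle.setoid σ := by
  unfold comp
  refine le_antisymm (sup_le le_rfl ?_) le_sup_left
  intro a b hab
  have hab' : (1 : Perm (Fin m × Bool)).SameCycle a b := hab
  have : a = b := by simpa using hab'
  subst this
  exact (SameCycle.setoid σ).refl a

theorem nc_sg (σ : Perm (Fin m × Bool)) : nc (sg σ) = nc σ + m := by
  have hS : Sat (∅ : Set (Fin m × Fin 3)) ∅ ∅ := ⟨by simp, by simp, by simp, by simp⟩
  have h1 := comp_sg σ hS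
  have h2 := card_R (comp σ (flipOn ∅)) ∅
  rw [← h1] at h2
  have h3 : comp (sg σ) (flipOn ∅) = SameCycle.setoid (sg σ) := by
    rw [flipOn_empty]
    unfold comp
    refine le_antisymm (sup_le le_rfl ?_) le_sup_left
    intro a b hab
    have hab' : (1 : Perm ((Fin m × Fin 3) × Bool)).SameCycle a b := hab
    have : a = b := by simpa using hab'
    subst this
    exact (SameCycle.setoid (sg σ)).refl a
  rw [h3, flipOn_empty, comp_one] at h2
  simpa [nc] using h2

theorem ncomp_sg (σ : Perm (Fin m × Bool)) {F : Set (Fin m × Fin 3)} {S T : Set (Fin m)}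
    (hF : Sat F S T) :
    ncomp (sg σ) (flipOn F) + Nat.card T = ncomp σ (flipOn S) + m := by
  unfold ncomp
  rw [comp_sg σ hF]
  exact card_R _ _

theorem card_sat {F : Set (Fin m × Fin 3)} {S T : Set (Fin m)} (hF : Sat F S T) :
    Nat.card F = 2 * Nat.card T + Nat.card S := by
  have e : F ≃ T ⊕ (T ⊕ S) := by
    refine ⟨fun x => match x with
      | ⟨(i, 0), h⟩ => Sum.inl ⟨i, (hF.h0 i).1 h⟩
      | ⟨(i, 1), h⟩ => Sum.inr (Sum.inl ⟨i, (hF.h1 i).1 h⟩)
      | ⟨(i, 2), h⟩ => Sum.inr (Sum.inr ⟨i, (hF.h2 i).1 h⟩),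
      fun x => match x with
      | Sum.inl ⟨i, h⟩ => ⟨(i, 0), (hF.h0 i).2 h⟩
      | Sum.inr (Sum.inl ⟨i, h⟩) => ⟨(i, 1), (hF.h1 i).2 h⟩
      | Sum.inr (Sum.inr ⟨i, h⟩) => ⟨(i, 2), (hF.h2 i).2 h⟩, ?_, ?_⟩
    · rintro ⟨⟨i, j⟩, h⟩
      fin_cases j <;> rfl
    · rintro (⟨i, h⟩ | ⟨i, h⟩ | ⟨i, h⟩) <;> rfl
  rw [Nat.card_congr e, Nat.card_sum, Nat.card_sum]
  omega

theorem nc_pi {σ : Perm (Fin m × Bool)} (hp : Planar (sg σ) (flip (Fin m × Fin 3)))
    {F : Set (Fin m × Fin 3)} {S T : Set (Fin m)} (hF : Sat F S T) :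
    nc (flipOn F * sg σ) + nc σ = 2 * ncomp σ (flipOn S) + m + Nat.card S := by
  have h1 := euler hp F
  have h2 := nc_sg σ
  have h3 := ncomp_sg σ hF
  have h4 := card_sat hF
  omega

theorem sat_of_good {σ : Perm (Fin m × Bool)} (hp : Planar (sg σ) (flip (Fin m × Fin 3)))
    {F : Set (Fin m × Fin 3)}
    (hg : ∀ e, ¬ (flipOn F * sg σ).SameCycle (e, false) (e, true)) :
    Sat F {i | (i, 2) ∈ F} {i | (i, 0) ∈ F} := by
  set c := comp (sg σ) (flipOn F) with hc
  have e1 : ∀ x, c x (sg σ x) := comp_step_left _ _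
  have e2 : ∀ {e : Fin m × Fin 3} (s : Bool), e ∈ F → c (e, s) (e, !s) := by
    intro e s he
    have := comp_step_right (sg σ) (flipOn F) (e, s)
    rwa [flipOn_of_mem he] at this
  have b : ∀ i : Fin m, c ((i, 0), false) ((i, 1), false) := fun i => e1 ((i, 0), false)
  have w : ∀ i : Fin m, c ((i, 1), true) ((i, 0), true) := fun i => e1 ((i, 1), true)
  have h01 : ∀ i, (i, (0 : Fin 3)) ∈ F ↔ (i, (1 : Fin 3)) ∈ F := by
    intro i
    constructor
    · intro h
      by_contra h'
      refine hg _ ((same_of_notMem hp h').2 ?_)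
      exact c.trans (c.symm (b i)) (c.trans (e2 false h) (c.symm (w i)))
    · intro h
      by_contra h'
      refine hg _ ((same_of_notMem hp h').2 ?_)
      exact c.trans (b i) (c.trans (e2 false h) (w i))
  refine ⟨fun i => Iff.rfl, fun i => (h01 i).symm, fun i => Iff.rfl, ?_⟩
  intro i hi
  change (i, (2 : Fin 3)) ∈ F at hi
  change (i, (0 : Fin 3)) ∈ F
  by_contra h0
  have h1 : (i, (1 : Fin 3)) ∉ F := fun h => h0 ((h01 i).2 h)
  refine hg _ ((same_of_mem hp hi).2 ?_)
  intro hcomp
  have key : comp (sg σ) (flipOn (F \ {(i, 2)})) ≤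
      Setoid.ker (fun x : (Fin m × Fin 3) × Bool => x.1.1 = i ∧ x.2 = true) := by
    apply comp_le_of
    · rintro ⟨⟨k, j⟩, s⟩
      change (k = i ∧ s = true) = ((sg σ ((k, j), s)).1.1 = i ∧ (sg σ ((k, j), s)).2 = true)
      fin_cases j <;> cases s
      · simp [sg_0f]
      · simp [sg_0t]
      · simp [sg_1f]
      · simp [sg_1t]
      · simp [sg_2f]
      · simp [sg_2t]
    · rintro ⟨⟨k, j⟩, s⟩
      change (k = i ∧ s = true) = _
      by_cases hk : (k, j) ∈ F \ {(i, 2)}
      · have hki : k ≠ i := by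
          rintro rfl
          fin_cases j
          · exact h0 hk.1
          · exact h1 hk.1
          · exact hk.2 rfl
        rw [flipOn_of_mem hk]
        simp [hki]
      · rw [flipOn_of_notMem hk]
  have := key hcomp
  rw [Setoid.ker_def] at this
  simp at this

theorem level_iff' {σ : Perm (Fin m × Bool)} (hp : Planar (sg σ) (flip (Fin m × Fin 3))) :
    (∃ F : Set (Fin m × Fin 3), (∀ e, ¬ (flipOn F * sg σ).SameCycle (e, false) (e, true)) ∧
      nc (flipOn F * sg σ) ≤ m + 2) ↔
    ∃ S : Set (Fin m), (∀ i ∈ S, comp σ (flipOn (S \ {i})) (i, false) (i, true)) ∧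
      2 * ncomp σ (flipOn S) + Nat.card S ≤ nc σ + 2 := by
  constructor
  · rintro ⟨F, hg, hn⟩
    have hF := sat_of_good hp hg
    refine ⟨{i | (i, 2) ∈ F}, ?_, ?_⟩
    · intro i hi
      change (i, (2 : Fin 3)) ∈ F at hi
      have h1 : comp (sg σ) (flipOn (F \ {(i, 2)})) ((i, 2), false) ((i, 2), true) := by
        have := mt (same_of_mem hp hi).2
        exact not_not.1 (this (hg _))
      have hF' : Sat (F \ {(i, 2)}) ({i | (i, 2) ∈ F} \ {i}) {i | (i, 0) ∈ F} := by
        refine ⟨fun k => ?_, fun k => ?_, fun k => ?_, fun k hk => hF.hST hk.1⟩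
        · simp
        · have := hF.h1 k
          simpa using this
        · simp
      rw [comp_sg σ hF', R_iff] at h1
      rcases h1 with ⟨_, _, h3⟩ | ⟨h, _, _⟩
      · exact (comp σ (flipOn ({i | (i, 2) ∈ F} \ {i}))).symm h3
      · exact absurd (Or.inl rfl) h
    · have := nc_pi hp hF
      omega
  · rintro ⟨S, hS, hn⟩
    have hF : Sat {e : Fin m × Fin 3 | e.1 ∈ S} S S :=
      ⟨fun i => Iff.rfl, fun i => Iff.rfl, fun i => Iff.rfl, subset_rfl⟩
    refine ⟨{e | e.1 ∈ S}, ?_, ?_⟩
    · rintro ⟨i, j⟩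
      by_cases hi : i ∈ S
      · have hmem : (i, j) ∈ {e : Fin m × Fin 3 | e.1 ∈ S} := hi
        rw [same_of_mem hp hmem, not_not]
        set F' := {e : Fin m × Fin 3 | e.1 ∈ S} \ {(i, j)} with hF'
        set c := comp (sg σ) (flipOn F') with hc
        have e1 : ∀ x, c x (sg σ x) := comp_step_left _ _
        have e2 : ∀ {e : Fin m × Fin 3} (s : Bool), e ∈ F' → c (e, s) (e, !s) := by
          intro e s he
          have := comp_step_right (sg σ) (flipOn F') (e, s)
          rwa [flipOn_of_mem he] at this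
        have b : c ((i, 0), false) ((i, 1), false) := e1 ((i, 0), false)
        have w : c ((i, 1), true) ((i, 0), true) := e1 ((i, 1), true)
        fin_cases j
        · have h1 : (i, (1 : Fin 3)) ∈ F' := ⟨hi, by simp⟩
          exact c.trans b (c.trans (e2 false h1) w)
        · have h0 : (i, (0 : Fin 3)) ∈ F' := ⟨hi, by simp⟩
          exact c.trans (c.symm b) (c.trans (e2 false h0) (c.symm w))
        · have hF2 : Sat F' (S \ {i}) S := by
            refine ⟨fun k => ?_, fun k => ?_, fun k => ?_, fun k hk => hk.1⟩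
            · simp [hF']
            · simp [hF']
            · simp [hF']
          change c ((i, 2), false) ((i, 2), true)
          rw [hc, comp_sg σ hF2, R_iff]
          exact Or.inl ⟨Or.inl rfl, Or.inr hi, (comp σ (flipOn (S \ {i}))).symm (hS i hi)⟩
      · have hmem : (i, j) ∉ {e : Fin m × Fin 3 | e.1 ∈ S} := hi
        rw [same_of_notMem hp hmem, comp_sg σ hF, R_iff]
        rintro (⟨_, h, _⟩ | ⟨h, _, _⟩)
        · rcases h with h | h
          · exact absurd h (by simp)
          · exact hi h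
        · exact h (Or.inl rfl)
    · have := nc_pi hp hF
      omega

end

end Helper5.DCD
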