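import Pool.Agent.Helper5.DCD.P2

/-!
# Decompositions into directed cycles and sets of flipped edges
-/

open Equiv Equiv.Perm Helper5.CR

namespace Helper5.DCD

section lists
variable {α : Type} [DecidableEq α]

/-- product of the cycles -/
def cyc (L : List (List α)) : Perm α := (L.map List.formPerm).prod

theorem cyc_cons (l : List α) (L : List (List α)) : cyc (l :: L) = l.formPerm * cyc L := by
  simp [cyc]

theorem cyc_spec : ∀ (L : List (List α)), L.flatten.Nodup →
    (∀ l ∈ L, ∀ x ∈ l, cyc L x = l.formPerm x) ∧ (∀ x, x ∉ L.flatten → cyc L x = x)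
  | [], _ => by simp [cyc]
  | l :: L, h => by
    rw [List.flatten_cons, List.nodup_append'] at h
    obtain ⟨h1, h2, h3⟩ := h
    obtain ⟨i1, i2⟩ := cyc_spec L h2
    constructor
    · intro l' hl' x hx
      rw [cyc_cons, Perm.mul_apply]
      rcases List.mem_cons.1 hl' with rfl | hl'
      · rw [i2 x (h3 hx)]
      · rw [i1 l' hl' x hx]
        apply List.formPerm_apply_of_notMem
        intro hmem
        refine h3 hmem (List.mem_flatten.2 ⟨l', hl', ?_⟩)
        exact (List.formPerm_mem_iff_mem).2 hx
    · intro x hx
      rw [List.flatten_cons, List.mem_append, not_or] at hx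
      rw [cyc_cons, Perm.mul_apply, i2 x hx.2, List.formPerm_apply_of_notMem hx.1]

theorem formPerm_same {l : List α} (hl : l.Nodup) {x y : α} (hx : x ∈ l) (hy : y ∈ l) :
    ∃ n : ℕ, (l.formPerm ^ n) x = y := by
  obtain ⟨i, hi, rfl⟩ := List.mem_iff_getElem.1 hx
  obtain ⟨j, hj, rfl⟩ := List.mem_iff_getElem.1 hy
  refine ⟨j + (l.length - i), ?_⟩
  rw [List.formPerm_pow_apply_getElem l hl]
  congr 1
  have : i + (j + (l.length - i)) = j + l.length := by omega
  rw [this, Nat.add_mod_right, Nat.mod_eq_of_lt hj]

theorem cyc_pow {L : List (List α)} (h : L.flatten.Nodup) {l : List α} (hl : l ∈ L) {x : α}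
    (hx : x ∈ l) (n : ℕ) : (cyc L ^ n) x = (l.formPerm ^ n) x ∧ (l.formPerm ^ n) x ∈ l := by
  induction n with
  | zero => exact ⟨rfl, hx⟩
  | succ n ih =>
    rw [pow_succ', pow_succ', Perm.mul_apply, Perm.mul_apply, ih.1]
    exact ⟨(cyc_spec L h).1 l hl _ ih.2, List.formPerm_mem_iff_mem.2 ih.2⟩

theorem cyc_same {L : List (List α)} (h : L.flatten.Nodup) {l : List α} (hl : l ∈ L) {x y : α}
    (hx : x ∈ l) (hy : y ∈ l) : (cyc L).SameCycle x y := by
  have hn : l.Nodup := (List.nodup_flatten.1 h).1 l hl
  obtain ⟨n, hn⟩ := formPerm_same hn hx hy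
  exact ⟨n, by rw [zpow_natCast, (cyc_pow h hl hx n).1, hn]⟩

theorem same_cyc [Fintype α] {L : List (List α)} (h : L.flatten.Nodup) {l : List α} (hl : l ∈ L)
    {x y : α} (hx : x ∈ l) (hxy : (cyc L).SameCycle x y) : y ∈ l := by
  obtain ⟨n, rfl⟩ := hxy.exists_nat_pow_eq
  rw [(cyc_pow h hl hx n).1]
  exact (cyc_pow h hl hx n).2

theorem nc_cyc_le [Fintype α] {L : List (List α)} (h : L.flatten.Nodup)
    (hall : ∀ x, x ∈ L.flatten) : nc (cyc L) ≤ L.length := by
  have hch : ∀ q : Quotient (SameCycle.setoid (cyc L)), ∃ i : Fin L.length, q.out ∈ L[i] := by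
    intro q
    obtain ⟨l, hl, hx⟩ := List.mem_flatten.1 (hall q.out)
    obtain ⟨i, hi, rfl⟩ := List.mem_iff_getElem.1 hl
    exact ⟨⟨i, hi⟩, hx⟩
  choose i hi using hch
  have hinj : Function.Injective i := by
    intro q q' hq
    have h1 := hi q
    have h2 := hi q'
    rw [← hq] at h2
    have h3 : (SameCycle.setoid (cyc L)) q.out q'.out :=
      cyc_same h (List.getElem_mem _) h1 h2
    rw [← Quotient.out_eq q, ← Quotient.out_eq q']
    exact Quotient.sound h3
  have := Nat.card_le_card_of_injective i hinj
  simpa [nc] using this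

end lists

theorem exists_F {E : Type} [Fintype E] (π σ : Perm (E × Bool))
    (h : ∀ x, (π x).1 = (σ x).1) : ∃ F : Set E, π = flipOn F * σ := by
  refine ⟨{e | π (σ.symm (e, false)) = (e, true)}, ?_⟩
  ext1 x
  obtain ⟨⟨e, s⟩, rfl⟩ := σ.symm.surjective x
  rw [Perm.mul_apply, Equiv.apply_symm_apply]
  have key : ∀ t, ∃ t', π (σ.symm (e, t)) = (e, t') := by
    intro t
    have := h (σ.symm (e, t))
    rw [Equiv.apply_symm_apply] at this
    exact ⟨(π (σ.symm (e, t))).2, Prod.ext this rfl⟩
  obtain ⟨a, ha⟩ := key false
  obtain ⟨b, hb⟩ := key true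
  have hab : a ≠ b := by
    rintro rfl
    have := σ.symm.injective (π.injective (ha.trans hb.symm))
    simp at this
  by_cases hF : e ∈ {e | π (σ.symm (e, false)) = (e, true)}
  · rw [flipOn_of_mem hF]
    have h1 : π (σ.symm (e, false)) = (e, true) := hF
    have ha' : a = true := by
      have := ha.symm.trans h1
      simpa using this
    have hb' : b = false := by
      cases b
      · rfl
      · exact absurd ha' hab
    cases s
    · exact h1
    · rw [hb, hb']; rfl
  · rw [flipOn_of_notMem hF]
    have ha' : a = false := by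
      cases a
      · rfl
      · exact absurd ha hF
    have hb' : b = true := by
      cases b
      · exact absurd ha' hab
      · rfl
    cases s
    · rw [ha, ha']
    · rw [hb, hb']

/-- Module A: decompositions into directed cycles = sets `F` of flipped edges. -/
theorem yes_iff {E : Type} [Fintype E] (D : DInst) (hD : D.Loopless) (σ : Perm (E × Bool))
    (idx : Fin D.arcs.length ≃ E × Bool) (name : E → Fin D.n) (hname : Function.Injective name)
    (htail : ∀ j, D.tail j = name (idx j).1) (hhead : ∀ j, D.head j = name (σ (idx j)).1) :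
    D.Yes ↔ ∃ F : Set E, (∀ e, ¬ (flipOn F * σ).SameCycle (e, false) (e, true)) ∧
      nc (flipOn F * σ) ≤ D.k := by
  classical
  constructor
  · rintro ⟨L, ⟨hL1, hL2⟩, hk⟩
    have hnd : L.flatten.Nodup := hL2.nodup_iff.2 (List.nodup_finRange _)
    have hall : ∀ x, x ∈ L.flatten := fun x => hL2.mem_iff.2 (List.mem_finRange x)
    have hnext : ∀ x, D.tail (cyc L x) = D.head x := by
      intro x
      obtain ⟨l, hl, hx⟩ := List.mem_flatten.1 (hall x)
      rw [(cyc_spec L hnd).1 l hl x hx]
      obtain ⟨h2, h3, h4⟩ := hL1 l hl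
      have hn : l.Nodup := h3.of_map _
      obtain ⟨i, hi, rfl⟩ := List.mem_iff_getElem.1 hx
      rw [List.formPerm_apply_getElem l hn i hi]
      have h5 : (l.map D.head)[i]'(by simpa using hi) =
          ((l.map D.tail).rotate 1)[i]'(by simpa using hi) := by
        simp only [h4]
      rw [List.getElem_map, List.getElem_rotate, List.getElem_map] at h5
      rw [h5]
      congr 2
      simp
    have hπ : ∀ x, (idx.permCongr (cyc L) x).1 = (σ x).1 := by
      intro x
      obtain ⟨j, rfl⟩ := idx.surjective x
      rw [Equiv.permCongr_apply, Equiv.symm_apply_apply]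
      apply hname
      rw [← htail, ← hhead]
      exact hnext j
    obtain ⟨F, hF⟩ := exists_F _ σ hπ
    refine ⟨F, ?_, ?_⟩
    · intro e hsame
      rw [← hF] at hsame
      have h1 : (cyc L).SameCycle (idx.symm (e, false)) (idx.symm (e, true)) := by
        rw [← sameCycle_permCongr idx]
        simpa using hsame
      obtain ⟨l, hl, hx⟩ := List.mem_flatten.1 (hall (idx.symm (e, false)))
      have hy := same_cyc hnd hl hx h1
      have h3 := (hL1 l hl).2.1
      have h4 : D.tail (idx.symm (e, false)) = D.tail (idx.symm (e, true)) := by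
        rw [htail, htail]; simp
      have h5 := List.inj_on_of_nodup_map h3 hx hy h4
      simpa using idx.symm.injective h5
    · rw [← hF, nc_permCongr]
      exact (nc_cyc_le hnd hall).trans hk
  · rintro ⟨F, hF, hk⟩
    set π : Perm (Fin D.arcs.length) := idx.symm.permCongr (flipOn F * σ) with hπ
    have hidx : ∀ j, idx (π j) = flipOn F (σ (idx j)) := by
      intro j
      simp [hπ, Equiv.permCongr_apply]
    have hfst : ∀ y : E × Bool, (flipOn F y).1 = y.1 := by
      rintro ⟨e, s⟩
      by_cases h : e ∈ F
      · rw [flipOn_of_mem h]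
      · rw [flipOn_of_notMem h]
    have hnext : ∀ j, D.tail (π j) = D.head j := by
      intro j
      rw [htail, hhead, hidx, hfst]
    have hfix : ∀ j, π j ≠ j := by
      intro j hj
      apply hD j
      rw [← hnext j, hj]
    have hsupp : ∀ j, j ∈ π.support := fun j => mem_support.2 (hfix j)
    have htails : ∀ j j', π.SameCycle j j' → D.tail j = D.tail j' → j = j' := by
      intro j j' hs ht
      rw [htail, htail] at ht
      have ht' := hname ht
      by_contra hne
      have hs' : (flipOn F * σ).SameCycle (idx j) (idx j') := by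
        refine (sameCycle_permCongr idx.symm (flipOn F * σ) (idx j) (idx j')).1 ?_
        rw [Equiv.symm_apply_apply, Equiv.symm_apply_apply]
        exact hs
      have hne' : idx j ≠ idx j' := fun h => hne (idx.injective h)
      rcases hj : idx j with ⟨e, s⟩
      rcases hj' : idx j' with ⟨e', s'⟩
      rw [hj, hj'] at ht' hne' hs'
      simp only at ht'
      subst ht'
      cases s <;> cases s'
      · exact hne' rfl
      · exact hF e hs'
      · exact hF e hs'.symm
      · exact hne' rfl
    set L : List (List (Fin D.arcs.length)) :=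
      (Finset.univ : Finset (Quotient (SameCycle.setoid π))).toList.map
        (fun q => π.toList q.out) with hL
    have hmemL : ∀ l ∈ L, ∃ x, l = π.toList x := by
      intro l hl
      obtain ⟨q, _, rfl⟩ := List.mem_map.1 hl
      exact ⟨q.out, rfl⟩
    refine ⟨L, ⟨?_, ?_⟩, ?_⟩
    · intro l hl
      obtain ⟨x, rfl⟩ := hmemL l hl
      refine ⟨?_, ?_, ?_⟩
      · exact two_le_length_toList_iff_mem_support.2 (hsupp x)
      · refine (List.nodup_map_iff_inj_on (nodup_toList π x)).2 ?_
        intro a ha b hb hab
        have ha' := (mem_toList_iff.1 ha).1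
        have hb' := (mem_toList_iff.1 hb).1
        exact htails a b (ha'.symm.trans hb') hab
      · apply List.ext_getElem
        · simp
        · intro i h1 h2
          rw [List.getElem_map, List.getElem_rotate, List.getElem_map]
          rw [getElem_toList, getElem_toList]
          rw [← hnext, ← Perm.mul_apply, ← pow_succ']
          congr 1
          have hlen : (List.map D.tail (π.toList x)).length = (π.cycleOf x).support.card := by
            rw [List.length_map, length_toList]
          rw [hlen, pow_mod_card_support_cycleOf_self_apply]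
    · rw [List.perm_ext_iff_of_nodup _ (List.nodup_finRange _)]
      · intro x
        simp only [List.mem_finRange, iff_true]
        rw [List.mem_flatten]
        refine ⟨π.toList (Quotient.mk (SameCycle.setoid π) x).out, ?_, ?_⟩
        · rw [hL]
          exact List.mem_map.2 ⟨_, by simp, rfl⟩
        · rw [mem_toList_iff]
          exact ⟨Quotient.exact (Quotient.out_eq (Quotient.mk (SameCycle.setoid π) x)), hsupp _⟩
      · rw [List.nodup_flatten]
        constructor
        · intro l hl
          obtain ⟨x, rfl⟩ := hmemL l hl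
          exact nodup_toList π x
        · rw [hL, List.pairwise_map]
          refine (Finset.nodup_toList _).imp ?_
          intro q q' hq x hx hx'
          apply hq
          have h1 := (mem_toList_iff.1 hx).1
          have h2 := (mem_toList_iff.1 hx').1
          have h3 : (SameCycle.setoid π) q.out q'.out := h1.trans h2.symm
          rw [← Quotient.out_eq q, ← Quotient.out_eq q']
          exact Quotient.sound h3
    · rw [hL, List.length_map, Finset.length_toList, Finset.card_univ]
      have h1 : nc π = nc (flipOn F * σ) := nc_permCongr _ _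
      rw [← h1] at hk
      unfold nc at hk
      rwa [Nat.card_eq_fintype_card] at hk

end Helper5.DCD
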