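import Pool.Agent.Helper5.DCD.Level

/-!
# The graph `H` is plane
-/

open Equiv Equiv.Perm Helper5.CR

namespace Helper5.DCD

section
variable {m : ℕ}

/-- half-edges of the digons -/
def Dig (x : (Fin m × Fin 3) × Bool) : Prop :=
  (x.1.2 = 0 ∧ x.2 = true) ∨ (x.1.2 = 1 ∧ x.2 = false)

/-- position on the old faces -/
def qf (x : (Fin m × Fin 3) × Bool) : Fin m × Bool :=
  (x.1.1, decide (x.1.2 = 1 ∨ (x.1.2 = 2 ∧ x.2 = false)))

def R2 (r : Setoid (Fin m × Bool)) : Setoid ((Fin m × Fin 3) × Bool) where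
  r x y := (¬ Dig x ∧ ¬ Dig y ∧ r (qf x) (qf y)) ∨ (Dig x ∧ Dig y ∧ x.1.1 = y.1.1)
  iseqv := by
    refine ⟨fun x => ?_, ?_, ?_⟩
    · by_cases h : Dig x
      · exact Or.inr ⟨h, h, rfl⟩
      · exact Or.inl ⟨h, h, r.refl _⟩
    · rintro x y (⟨h1, h2, h3⟩ | ⟨h1, h2, h3⟩)
      · exact Or.inl ⟨h2, h1, r.symm h3⟩
      · exact Or.inr ⟨h2, h1, h3.symm⟩
    · rintro x y z (⟨h1, h2, h3⟩ | ⟨h1, h2, h3⟩) (⟨h4, h5, h6⟩ | ⟨h4, h5, h6⟩)
      · exact Or.inl ⟨h1, h5, r.trans h3 h6⟩
      · exact absurd h4 h2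
      · exact absurd h2 h4
      · exact Or.inr ⟨h1, h5, h3.trans h6⟩

theorem R2_iff (r : Setoid (Fin m × Bool)) (x y : (Fin m × Fin 3) × Bool) :
    R2 r x y ↔ (¬ Dig x ∧ ¬ Dig y ∧ r (qf x) (qf y)) ∨
      (Dig x ∧ Dig y ∧ x.1.1 = y.1.1) := Iff.rfl

theorem card_R2 (r : Setoid (Fin m × Bool)) :
    Nat.card (Quotient (R2 r)) = Nat.card (Quotient r) + m := by
  classical
  have e : Quotient (R2 r) ≃ Quotient r ⊕ Fin m := by
    refine Equiv.ofBijective (Quotient.lift (fun x => if h : Dig x then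
      Sum.inr x.1.1 else Sum.inl (Quotient.mk r (qf x))) ?_) ⟨?_, ?_⟩
    · rintro x y (⟨h1, h2, h3⟩ | ⟨h1, h2, h3⟩)
      · simp only [h1, h2, dif_neg, not_false_eq_true]
        exact congrArg Sum.inl (Quotient.sound h3)
      · simp only [h1, h2, dif_pos]
        exact congrArg Sum.inr h3
    · intro a b
      refine Quotient.inductionOn₂ a b fun x y h => ?_
      simp only [Quotient.lift_mk] at h
      apply Quotient.sound
      by_cases h1 : Dig x <;> by_cases h2 : Dig y
      · simp only [h1, h2, dif_pos, Sum.inr.injEq] at h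
        exact Or.inr ⟨h1, h2, h⟩
      · simp [h1, h2] at h
      · simp [h1, h2] at h
      · simp only [h1, h2, dif_neg, not_false_eq_true, Sum.inl.injEq] at h
        exact Or.inl ⟨h1, h2, Quotient.exact h⟩
    · rintro (q | i)
      · refine Quotient.inductionOn q fun d => ⟨Quotient.mk _ (fst3 d, false), ?_⟩
        have : ¬ Dig (fst3 d, false) := by
          rcases d with ⟨i, _ | _⟩ <;> simp [Dig, fst3]
        have h2 : qf (fst3 d, false) = d := by
          rcases d with ⟨i, _ | _⟩ <;> rfl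
        simp only [Quotient.lift_mk, this, dif_neg, not_false_eq_true, h2]
      · refine ⟨Quotient.mk _ ((i, 0), true), ?_⟩
        have : Dig ((i, (0 : Fin 3)), true) := Or.inl ⟨rfl, rfl⟩
        simp only [Quotient.lift_mk, this, dif_pos]
  rw [Nat.card_congr e, Nat.card_sum, Nat.card_fin]

theorem flip_apply {α : Type} (a : α) (s : Bool) : flip α (a, s) = (a, !s) := rfl

theorem face_setoid (σ : Perm (Fin m × Bool)) :
    SameCycle.setoid (sg σ * flip (Fin m × Fin 3)) = R2 (SameCycle.setoid (σ * flip (Fin m))) := by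
  set φ := sg σ * flip (Fin m × Fin 3) with hφ
  set ψ := σ * flip (Fin m) with hψ
  have s1 : ∀ x, φ.SameCycle x (φ x) := fun x => ⟨1, by simp⟩
  have t1 : ∀ x, ψ.SameCycle x (ψ x) := fun x => ⟨1, by simp⟩
  have hq : ∀ d : Fin m × Bool, qf (fst3 d, false) = d := by
    rintro ⟨i, _ | _⟩ <;> rfl
  have hD : ∀ d : Fin m × Bool, ¬ Dig (fst3 d, false) := by
    rintro ⟨i, _ | _⟩ <;> simp [Dig, fst3]
  apply le_antisymm
  · intro a b h
    refine sameCycle_of_forall (R2 (SameCycle.setoid ψ)) ?_ h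
    rintro ⟨⟨i, j⟩, s⟩
    fin_cases j <;> cases s
    · change R2 _ ((i, 0), false) ((i, 2), true)
      exact Or.inl ⟨by simp [Dig], by simp [Dig], SameCycle.refl _ _⟩
    · change R2 _ ((i, 0), true) ((i, 1), false)
      exact Or.inr ⟨by simp [Dig], by simp [Dig], rfl⟩
    · change R2 _ ((i, 1), false) ((i, 0), true)
      exact Or.inr ⟨by simp [Dig], by simp [Dig], rfl⟩
    · change R2 _ ((i, 1), true) (fst3 (σ (i, false)), false)
      refine Or.inl ⟨by simp [Dig], hD _, ?_⟩
      rw [hq]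
      exact t1 (i, true)
    · change R2 _ ((i, 2), false) ((i, 1), true)
      exact Or.inl ⟨by simp [Dig], by simp [Dig], SameCycle.refl _ _⟩
    · change R2 _ ((i, 2), true) (fst3 (σ (i, true)), false)
      refine Or.inl ⟨by simp [Dig], hD _, ?_⟩
      rw [hq]
      exact t1 (i, false)
  · have key : ∀ d d', ψ.SameCycle d d' → φ.SameCycle (fst3 d, false) (fst3 d', false) := by
      intro d d' h
      refine sameCycle_of_forall ((SameCycle.setoid φ).comap (fun d => (fst3 d, false))) ?_ h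
      rintro ⟨i, _ | _⟩
      · change φ.SameCycle ((i, 0), false) (fst3 (σ (i, true)), false)
        exact (s1 ((i, 0), false)).trans (s1 ((i, 2), true))
      · change φ.SameCycle ((i, 2), false) (fst3 (σ (i, false)), false)
        exact (s1 ((i, 2), false)).trans (s1 ((i, 1), true))
    have ha : ∀ x, ¬ Dig x → φ.SameCycle (fst3 (qf x), false) x := by
      rintro ⟨⟨i, j⟩, s⟩ h
      fin_cases j <;> cases s
      · exact SameCycle.refl _ _
      · simp [Dig] at h
      · simp [Dig] at h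
      · exact s1 ((i, 2), false)
      · exact SameCycle.refl _ _
      · exact s1 ((i, 0), false)
    have hb : ∀ x, Dig x → φ.SameCycle ((x.1.1, 0), true) x := by
      rintro ⟨⟨i, j⟩, s⟩ h
      rcases h with ⟨h1, h2⟩ | ⟨h1, h2⟩
      · simp only at h1 h2
        subst h1; subst h2
        exact SameCycle.refl _ _
      · simp only at h1 h2
        subst h1; subst h2
        exact s1 ((i, 0), true)
    rintro x y (⟨h1, h2, h3⟩ | ⟨h1, h2, h3⟩)
    · exact ((ha x h1).symm.trans (key _ _ h3)).trans (ha y h2)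
    · have := hb x h1
      rw [h3] at this
      exact this.symm.trans (hb y h2)

theorem nc_face (σ : Perm (Fin m × Bool)) :
    nc (sg σ * flip (Fin m × Fin 3)) = nc (σ * flip (Fin m)) + m := by
  unfold nc
  rw [face_setoid, card_R2]

/-- replacing every edge by the gadget keeps the graph plane -/
theorem planar_sg {σ : Perm (Fin m × Bool)} (hp : Planar σ (flip (Fin m))) :
    Planar (sg σ) (flip (Fin m × Fin 3)) := by
  have h1 := nc_sg σ
  have h2 := nc_face σ
  have hS : Sat (Set.univ : Set (Fin m × Fin 3)) Set.univ Set.univ :=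
    ⟨by simp, by simp, by simp, subset_rfl⟩
  have h3 := ncomp_sg σ hS
  rw [flipOn_univ, flipOn_univ] at h3
  have h4 := nc_flipOn (Set.univ : Set (Fin m × Fin 3))
  have h5 := nc_flipOn (Set.univ : Set (Fin m))
  rw [flipOn_univ] at h4 h5
  simp only [Nat.card_univ] at h3 h4 h5
  have h6 : Nat.card (Fin m) = m := by simp
  have h7 : Nat.card (Fin m × Fin 3) = 3 * m := by simp [mul_comm]
  have h8 : Nat.card ((Fin m × Fin 3) × Bool) = 6 * m := by simp; ring
  have h9 : Nat.card (Fin m × Bool) = 2 * m := by simp [mul_comm]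
  unfold Planar at hp ⊢
  omega

end

theorem level_iff {m : ℕ} {σ : Perm (Fin m × Bool)} (hp : Planar σ (flip (Fin m))) :
    (∃ F : Set (Fin m × Fin 3), (∀ e, ¬ (flipOn F * sg σ).SameCycle (e, false) (e, true)) ∧
      nc (flipOn F * sg σ) ≤ m + 2) ↔
    ∃ S : Set (Fin m), (∀ i ∈ S, comp σ (flipOn (S \ {i})) (i, false) (i, true)) ∧
      2 * ncomp σ (flipOn S) + Nat.card S ≤ nc σ + 2 :=
  level_iff' (planar_sg hp)

end Helper5.DCD
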