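import Pool.Agent.Helper5.DCD.Euler

/-!
# The medial digraph is planar and 2-in 2-out
-/

open Equiv Equiv.Perm Helper5.CR

namespace Helper5.DCD

section transport

variable {A B : Type}

theorem sameCycle_permCongr (e : A ≃ B) (p : Perm A) (x y : A) :
    (e.permCongr p).SameCycle (e x) (e y) ↔ p.SameCycle x y := by
  have h : ∀ n : ℤ, (e.permCongr p) ^ n = e.permCongr (p ^ n) := fun n =>
    (map_zpow e.permCongrHom p n).symm
  constructor
  · rintro ⟨n, hn⟩
    refine ⟨n, ?_⟩
    rw [h n] at hn
    simpa using hn
  · rintro ⟨n, hn⟩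
    refine ⟨n, ?_⟩
    rw [h n]
    simp [hn]

theorem nc_permCongr (e : A ≃ B) (p : Perm A) : nc (e.permCongr p) = nc p := by
  unfold nc
  refine (Nat.card_congr (Quotient.congr e ?_)).symm
  intro x y
  exact (sameCycle_permCongr e p x y).symm

theorem comp_permCongr (e : A ≃ B) (p q : Perm A) (x y : A) :
    comp (e.permCongr p) (e.permCongr q) (e x) (e y) ↔ comp p q x y := by
  constructor
  · intro h
    have hle : comp (e.permCongr p) (e.permCongr q) ≤ (comp p q).comap e.symm := by
      refine sup_le ?_ ?_
      · intro a b hab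
        obtain ⟨a, rfl⟩ := e.surjective a
        obtain ⟨b, rfl⟩ := e.surjective b
        have := (sameCycle_permCongr e p a b).1 hab
        change comp p q (e.symm (e a)) (e.symm (e b))
        rw [Equiv.symm_apply_apply, Equiv.symm_apply_apply]
        exact (le_sup_left : SameCycle.setoid p ≤ comp p q) this
      · intro a b hab
        obtain ⟨a, rfl⟩ := e.surjective a
        obtain ⟨b, rfl⟩ := e.surjective b
        have := (sameCycle_permCongr e q a b).1 hab
        change comp p q (e.symm (e a)) (e.symm (e b))
        rw [Equiv.symm_apply_apply, Equiv.symm_apply_apply]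
        exact (le_sup_right : SameCycle.setoid q ≤ comp p q) this
    have := hle h
    change comp p q (e.symm (e x)) (e.symm (e y)) at this
    simpa using this
  · intro h
    have hle : comp p q ≤ (comp (e.permCongr p) (e.permCongr q)).comap e := by
      refine sup_le ?_ ?_
      · intro a b hab
        exact (le_sup_left : SameCycle.setoid (e.permCongr p) ≤ _)
          ((sameCycle_permCongr e p a b).2 hab)
      · intro a b hab
        exact (le_sup_right : SameCycle.setoid (e.permCongr q) ≤ _)
          ((sameCycle_permCongr e q a b).2 hab)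
    exact hle h

theorem ncomp_permCongr (e : A ≃ B) (p q : Perm A) :
    ncomp (e.permCongr p) (e.permCongr q) = ncomp p q := by
  unfold ncomp
  refine (Nat.card_congr (Quotient.congr e ?_)).symm
  intro x y
  exact (comp_permCongr e p q x y).symm

theorem planar_permCongr (e : A ≃ B) {p q : Perm A} (h : Planar p q) :
    Planar (e.permCongr p) (e.permCongr q) := by
  unfold Planar at h ⊢
  have h1 : e.permCongr p * e.permCongr q = e.permCongr (p * q) :=
    (map_mul e.permCongrHom p q).symm
  rw [h1, nc_permCongr, nc_permCongr, nc_permCongr, ncomp_permCongr, h, Nat.card_congr e]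

end transport

section
variable {E : Type}

theorem flip_flip (x : E × Bool) : flip E (flip E x) = x := by
  rcases x with ⟨a, _ | _⟩ <;> rfl

theorem flip_fst (x : E × Bool) : (flip E x).1 = x.1 := rfl

/-- the rotation of the medial digraph -/
def rho (σ : Perm (E × Bool)) : Perm ((E × Bool) × Bool) where
  toFun x := match x with
    | (h, false) => (σ.symm h, true)
    | (h, true) => (flip E (σ h), false)
  invFun x := match x with
    | (h, true) => (σ h, false)
    | (h, false) => (σ.symm (flip E h), true)
  left_inv := by
    rintro ⟨h, _ | _⟩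
    · simp
    · simp [flip_flip]
  right_inv := by
    rintro ⟨h, _ | _⟩
    · simp [flip_flip]
    · simp

theorem rho_false (σ : Perm (E × Bool)) (h : E × Bool) : rho σ (h, false) = (σ.symm h, true) := rfl
theorem rho_true (σ : Perm (E × Bool)) (h : E × Bool) :
    rho σ (h, true) = (flip E (σ h), false) := rfl

/-- the vertex (edge of `H`) of a half-arc -/
def ed (σ : Perm (E × Bool)) (x : (E × Bool) × Bool) : E := if x.2 then (σ x.1).1 else x.1.1

set_option linter.unusedSectionVars false

variable [Fintype E]

theorem same_rho (σ : Perm (E × Bool)) (x y : (E × Bool) × Bool) :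
    (rho σ).SameCycle x y ↔ ed σ x = ed σ y := by
  classical
  have s1 : ∀ x, (rho σ).SameCycle x (rho σ x) := fun x => ⟨1, by simp⟩
  constructor
  · intro h
    refine sameCycle_of_forall (Setoid.ker (ed σ)) ?_ h
    rintro ⟨h, _ | _⟩
    · change ed σ (h, false) = ed σ (σ.symm h, true)
      simp [ed]
    · change ed σ (h, true) = ed σ (flip E (σ h), false)
      simp [ed, flip_fst]
  · intro h
    have a1 : ∀ z : E × Bool, (rho σ).SameCycle (z, false) (flip E z, false) := by
      intro z
      have := (s1 (z, false)).trans (s1 (rho σ (z, false)))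
      rw [rho_false, rho_true] at this
      simpa using this
    have a2 : ∀ e s s', (rho σ).SameCycle ((e, s), false) ((e, s'), false) := by
      intro e s s'
      by_cases h : s' = s
      · subst h; exact SameCycle.refl _ _
      · have h' : s' = !s := by cases s <;> cases s' <;> simp_all
        subst h'
        exact a1 (e, s)
    have a3 : ∀ z : (E × Bool) × Bool, (rho σ).SameCycle z ((ed σ z, true), false) := by
      rintro ⟨z, _ | _⟩
      · rcases z with ⟨e, s⟩
        exact a2 e s true
      · have := s1 (z, true)
        rw [rho_true] at this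
        refine this.trans ?_
        have h3 : flip E (σ z) = ((σ z).1, (flip E (σ z)).2) := rfl
        rw [h3]
        exact a2 _ _ _
    have := a3 x
    rw [h] at this
    exact this.trans (a3 y).symm

theorem nc_rho (σ : Perm (E × Bool)) : nc (rho σ) = Nat.card E := by
  unfold nc
  refine Nat.card_congr (Equiv.ofBijective (Quotient.lift (ed σ) ?_) ⟨?_, ?_⟩)
  · intro x y h
    exact (same_rho σ x y).1 h
  · intro a b
    refine Quotient.inductionOn₂ a b fun x y h => ?_
    exact Quotient.sound ((same_rho σ x y).2 h)
  · intro e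
    exact ⟨Quotient.mk _ ((e, true), false), rfl⟩

theorem comp_rho (σ : Perm (E × Bool)) (x y : (E × Bool) × Bool) :
    comp (rho σ) (flip (E × Bool)) x y ↔ comp σ (flip E) x.1 y.1 := by
  classical
  set c := comp (rho σ) (flip (E × Bool)) with hc
  have e1 : ∀ x, c x (rho σ x) := fun x =>
    (le_sup_left : SameCycle.setoid (rho σ) ≤ c) ⟨1, by simp⟩
  have e2 : ∀ x, c x (flip _ x) := fun x =>
    (le_sup_right : SameCycle.setoid (flip (E × Bool)) ≤ c) ⟨1, by simp⟩
  have f1 : ∀ x, comp σ (flip E) x (σ x) := fun x =>
    (le_sup_left : SameCycle.setoid σ ≤ comp σ (flip E)) ⟨1, by simp⟩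
  have f2 : ∀ x, comp σ (flip E) x (flip _ x) := fun x =>
    (le_sup_right : SameCycle.setoid (flip E) ≤ comp σ (flip E)) ⟨1, by simp⟩
  constructor
  · intro h
    have hle : c ≤ (comp σ (flip E)).comap Prod.fst := by
      refine sup_le ?_ ?_
      · intro a b hab
        refine sameCycle_of_forall ((comp σ (flip E)).comap Prod.fst) ?_ hab
        rintro ⟨z, _ | _⟩
        · change comp σ (flip E) z (σ.symm z)
          have := f1 (σ.symm z)
          rw [Equiv.apply_symm_apply] at this
          exact (comp σ (flip E)).symm this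
        · change comp σ (flip E) z (flip E (σ z))
          exact (comp σ (flip E)).trans (f1 z) (f2 (σ z))
      · intro a b hab
        refine sameCycle_of_forall ((comp σ (flip E)).comap Prod.fst) ?_ hab
        rintro ⟨z, s⟩
        exact (comp σ (flip E)).refl z
    exact hle h
  · intro h
    have hle : comp σ (flip E) ≤ c.comap (fun z => (z, false)) := by
      refine sup_le ?_ ?_
      · intro a b hab
        refine sameCycle_of_forall (c.comap (fun z => (z, false))) ?_ hab
        intro z
        change c (z, false) (σ z, false)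
        have h1 := e1 (σ z, false)
        rw [rho_false, Equiv.symm_apply_apply] at h1
        exact c.trans (e2 (z, false)) (c.symm h1)
      · intro a b hab
        refine sameCycle_of_forall (c.comap (fun z => (z, false))) ?_ hab
        intro z
        change c (z, false) (flip E z, false)
        have h1 := e1 (z, false)
        have h2 := e1 (rho σ (z, false))
        rw [rho_false, rho_true, Equiv.apply_symm_apply] at h2
        rw [rho_false] at h1
        exact c.trans h1 h2
    have hs : ∀ z : (E × Bool) × Bool, c z (z.1, false) := by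
      rintro ⟨z, _ | _⟩
      · exact c.refl _
      · exact e2 (z, true)
    exact c.trans (hs x) (c.trans (hle h) (c.symm (hs y)))

theorem ncomp_rho (σ : Perm (E × Bool)) :
    ncomp (rho σ) (flip (E × Bool)) = ncomp σ (flip E) := by
  unfold ncomp
  refine Nat.card_congr (Equiv.ofBijective
    (Quotient.lift (fun x => Quotient.mk (comp σ (flip E)) x.1) ?_) ⟨?_, ?_⟩)
  · intro x y h
    exact Quotient.sound ((comp_rho σ x y).1 h)
  · intro a b
    refine Quotient.inductionOn₂ a b fun x y h => ?_
    exact Quotient.sound ((comp_rho σ x y).2 (Quotient.exact h))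
  · intro q
    refine Quotient.inductionOn q fun z => ⟨Quotient.mk _ (z, false), rfl⟩

theorem pow_face_true (σ : Perm (E × Bool)) (n : ℕ) (z : E × Bool) :
    ((rho σ * flip (E × Bool)) ^ n) (z, true) = ((σ⁻¹ ^ n) z, true) := by
  induction n with
  | zero => rfl
  | succ n ih =>
    rw [pow_succ', Perm.mul_apply, ih, pow_succ', Perm.mul_apply]
    rfl

theorem pow_face_false (σ : Perm (E × Bool)) (n : ℕ) (z : E × Bool) :
    ((rho σ * flip (E × Bool)) ^ n) (z, false) = (((flip E * σ) ^ n) z, false) := by
  induction n with
  | zero => rfl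
  | succ n ih =>
    rw [pow_succ', Perm.mul_apply, ih, pow_succ', Perm.mul_apply]
    rfl

theorem same_face (σ : Perm (E × Bool)) (z z' : E × Bool) :
    ((rho σ * flip (E × Bool)).SameCycle (z, true) (z', true) ↔ σ.SameCycle z z') ∧
    ((rho σ * flip (E × Bool)).SameCycle (z, false) (z', false) ↔ (flip E * σ).SameCycle z z') ∧
    ¬ (rho σ * flip (E × Bool)).SameCycle (z, true) (z', false) := by
  classical
  refine ⟨⟨fun h => ?_, fun h => ?_⟩, ⟨fun h => ?_, fun h => ?_⟩, fun h => ?_⟩
  · obtain ⟨n, hn⟩ := h.exists_nat_pow_eq
    rw [pow_face_true] at hn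
    have h1 : (σ⁻¹).SameCycle z z' := ⟨n, by simpa using congrArg Prod.fst hn⟩
    exact sameCycle_inv.1 h1
  · obtain ⟨n, hn⟩ := (sameCycle_inv.2 h).exists_nat_pow_eq
    exact ⟨n, by rw [zpow_natCast, pow_face_true, hn]⟩
  · obtain ⟨n, hn⟩ := h.exists_nat_pow_eq
    rw [pow_face_false] at hn
    exact ⟨n, by simpa using congrArg Prod.fst hn⟩
  · obtain ⟨n, hn⟩ := h.exists_nat_pow_eq
    exact ⟨n, by rw [zpow_natCast, pow_face_false, hn]⟩
  · obtain ⟨n, hn⟩ := h.exists_nat_pow_eq
    rw [pow_face_true] at hn
    simpa using congrArg Prod.snd hn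

theorem nc_face2 (σ : Perm (E × Bool)) :
    nc (rho σ * flip (E × Bool)) = nc σ + nc (flip E * σ) := by
  unfold nc
  rw [← Nat.card_sum]
  refine Nat.card_congr (Equiv.ofBijective (Quotient.lift (fun x : (E × Bool) × Bool =>
    if x.2 then Sum.inl (Quotient.mk (SameCycle.setoid σ) x.1)
    else Sum.inr (Quotient.mk (SameCycle.setoid (flip E * σ)) x.1)) ?_) ⟨?_, ?_⟩)
  · rintro ⟨z, s⟩ ⟨z', s'⟩ h
    have h' : (rho σ * flip (E × Bool)).SameCycle (z, s) (z', s') := h
    cases s <;> cases s'
    · simp only [Bool.false_eq_true, if_false]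
      exact congrArg Sum.inr (Quotient.sound ((same_face σ z z').2.1.1 h'))
    · exact absurd h'.symm (same_face σ z' z).2.2
    · exact absurd h' (same_face σ z z').2.2
    · simp only [if_true]
      exact congrArg Sum.inl (Quotient.sound ((same_face σ z z').1.1 h'))
  · intro a b
    refine Quotient.inductionOn₂ a b fun x y h => ?_
    rcases x with ⟨z, s⟩
    rcases y with ⟨z', s'⟩
    simp only [Quotient.lift_mk] at h
    apply Quotient.sound
    change (rho σ * flip (E × Bool)).SameCycle (z, s) (z', s')
    cases s <;> cases s'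
    · simp only [Bool.false_eq_true, if_false, Sum.inr.injEq] at h
      exact (same_face σ z z').2.1.2 (Quotient.exact h)
    · simp at h
    · simp at h
    · simp only [if_true, Sum.inl.injEq] at h
      exact (same_face σ z z').1.2 (Quotient.exact h)
  · rintro (q | q)
    · refine Quotient.inductionOn q fun z => ⟨Quotient.mk _ (z, true), by simp⟩
    · refine Quotient.inductionOn q fun z => ⟨Quotient.mk _ (z, false), by simp⟩

theorem planar_rho {σ : Perm (E × Bool)} (hp : Planar σ (flip E)) :
    Planar (rho σ) (flip (E × Bool)) := by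
  classical
  have h1 := nc_rho σ
  have h2 := ncomp_rho σ
  have h3 := nc_face2 σ
  have h4 := nc_flipOn (Set.univ : Set (E × Bool))
  have h5 := nc_flipOn (Set.univ : Set E)
  rw [flipOn_univ] at h4 h5
  simp only [Nat.card_univ] at h4 h5
  have h6 : Nat.card (E × Bool) = 2 * Nat.card E := by simp [mul_comm]
  have h7 : Nat.card ((E × Bool) × Bool) = 2 * Nat.card (E × Bool) := by simp [mul_comm]
  have h8 : nc (flip E * σ) = nc (σ * flip E) := by
    rw [← nc_conj (σ * flip E) (flip E)]
    congr 1
    group
  unfold Planar at hp ⊢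
  omega

end

/-- Module P2: planarity of the medial digraph. -/
theorem isPlanar_of {E : Type} [Fintype E] (D : DInst) (σ : Perm (E × Bool))
    (idx : Fin D.arcs.length ≃ E × Bool) (name : E → Fin D.n) (hname : Function.Injective name)
    (htail : ∀ j, D.tail j = name (idx j).1) (hhead : ∀ j, D.head j = name (σ (idx j)).1)
    (hp : Planar σ (flip E)) : D.IsPlanar := by
  set e : (E × Bool) × Bool ≃ Fin D.arcs.length × Bool :=
    (idx.prodCongr (Equiv.refl Bool)).symm with he
  refine ⟨e.permCongr (rho σ), ?_, ?_⟩
  · intro h h'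
    obtain ⟨x, rfl⟩ := e.surjective h
    obtain ⟨y, rfl⟩ := e.surjective h'
    rw [sameCycle_permCongr, same_rho]
    have hpt : ∀ x : (E × Bool) × Bool, D.pt (e x) = name (ed σ x) := by
      rintro ⟨z, s⟩
      have : e (z, s) = (idx.symm z, s) := rfl
      rw [this]
      cases s
      · simp [DInst.pt, ed, htail]
      · simp [DInst.pt, ed, hhead]
    rw [hpt, hpt]
    exact hname.eq_iff.symm
  · have h1 := planar_permCongr e (planar_rho hp)
    have h2 : e.permCongr (flip (E × Bool)) = flip (Fin D.arcs.length) := by
      ext1 ⟨j, s⟩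
      have : e.symm (j, s) = (idx j, s) := rfl
      rw [Equiv.permCongr_apply, this]
      change e (idx j, !s) = (j, !s)
      have : e (idx j, !s) = (idx.symm (idx j), !s) := rfl
      rw [this, Equiv.symm_apply_apply]
    rwa [h2] at h1

/-- Module P2, second part: in- and out-degree two. -/
theorem degrees_of {E : Type} [Fintype E] (D : DInst) (σ : Perm (E × Bool))
    (idx : Fin D.arcs.length ≃ E × Bool) (name : E → Fin D.n) (hname : Function.Bijective name)
    (htail : ∀ j, D.tail j = name (idx j).1) (hhead : ∀ j, D.head j = name (σ (idx j)).1)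
    (v : Fin D.n) : D.indeg v = 2 ∧ D.outdeg v = 2 := by
  obtain ⟨e, rfl⟩ := hname.surjective v
  have h2 : Nat.card {x : E × Bool // x.1 = e} = 2 := by
    have : {x : E × Bool // x.1 = e} ≃ Bool :=
      ⟨fun x => x.1.2, fun s => ⟨(e, s), rfl⟩, by rintro ⟨⟨a, s⟩, rfl⟩; rfl, fun s => rfl⟩
    rw [Nat.card_congr this]
    simp
  constructor
  · rw [← h2]
    unfold DInst.indeg
    refine Nat.card_congr ((idx.trans σ).subtypeEquiv ?_)
    intro j
    rw [hhead]
    simp [hname.injective.eq_iff]
  · rw [← h2]
    unfold DInst.outdeg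
    refine Nat.card_congr (idx.subtypeEquiv ?_)
    intro j
    rw [htail]
    simp [hname.injective.eq_iff]

end Helper5.DCD
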