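import Pool.Agent.Helper5.DCD.Defs

/-!
# The reduction

For every edge `i` of the plane graph the digraph has the three vertices `3 i`, `3 i + 1`,
`3 i + 2` and six arcs.
-/

open Equiv Equiv.Perm Helper5.CR

namespace Helper5.DCD

/-- names of the vertices -/
def nm {m : ℕ} (e : Fin m × Fin 3) : Fin (3 * m) := ⟨3 * e.1.1 + e.2.1, by omega⟩

/-- the first new half-edge in the place of the half-edge `d` -/
def fst3 {m : ℕ} (d : Fin m × Bool) : Fin m × Fin 3 := (d.1, if d.2 then 2 else 0)

/-- the last new half-edge in the place of the half-edge `d` -/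
def lst3 {m : ℕ} (d : Fin m × Bool) : Fin m × Fin 3 := (d.1, if d.2 then 2 else 1)

/-- the reduction -/
def red (G : PlaneGraph) : DInst where
  n := 3 * G.m
  arcs := (List.finRange G.m).flatMap fun i =>
    [(nm (i, 0), nm (i, 1)), (nm (i, 1), nm (i, 0)), (nm (i, 0), nm (i, 2)),
      (nm (i, 2), nm (i, 1)), (nm (i, 1), nm (fst3 (G.σ (i, false)))),
      (nm (i, 2), nm (fst3 (G.σ (i, true))))]
  k := G.m + 2

/-- vertex rotation of the intermediate plane graph `H`; its edges are `(i, j)` with `j : Fin 3`:
`0`, `1` are the two parallel edges from the base vertex of `(i, false)` to the new vertex `w i` and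
`2` is the edge from the base vertex of `(i, true)` to `w i`; the half-edges `(e, true)` are those
at the new vertices. -/
def sgfun {m : ℕ} (σ : Perm (Fin m × Bool)) : (Fin m × Fin 3) × Bool → (Fin m × Fin 3) × Bool
  | ((i, 0), false) => ((i, 1), false)
  | ((i, 1), false) => (fst3 (σ (i, false)), false)
  | ((i, 2), false) => (fst3 (σ (i, true)), false)
  | ((i, 0), true) => ((i, 2), true)
  | ((i, 1), true) => ((i, 0), true)
  | ((i, 2), true) => ((i, 1), true)

def sginv {m : ℕ} (σ : Perm (Fin m × Bool)) : (Fin m × Fin 3) × Bool → (Fin m × Fin 3) × Bool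
  | ((i, 1), false) => ((i, 0), false)
  | ((i, 0), false) => (lst3 (σ.symm (i, false)), false)
  | ((i, 2), false) => (lst3 (σ.symm (i, true)), false)
  | ((i, 2), true) => ((i, 0), true)
  | ((i, 0), true) => ((i, 1), true)
  | ((i, 1), true) => ((i, 2), true)

theorem fst3_false {m : ℕ} (i : Fin m) : fst3 (i, false) = (i, 0) := rfl
theorem fst3_true {m : ℕ} (i : Fin m) : fst3 (i, true) = (i, 2) := rfl
theorem lst3_false {m : ℕ} (i : Fin m) : lst3 (i, false) = (i, 1) := rfl
theorem lst3_true {m : ℕ} (i : Fin m) : lst3 (i, true) = (i, 2) := rfl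

theorem sgfun_lst {m : ℕ} (σ : Perm (Fin m × Bool)) (d : Fin m × Bool) :
    sgfun σ (lst3 d, false) = (fst3 (σ d), false) := by
  rcases d with ⟨i, _ | _⟩ <;> rfl

theorem sginv_fst {m : ℕ} (σ : Perm (Fin m × Bool)) (d : Fin m × Bool) :
    sginv σ (fst3 d, false) = (lst3 (σ.symm d), false) := by
  rcases d with ⟨i, _ | _⟩ <;> rfl

def sg {m : ℕ} (σ : Perm (Fin m × Bool)) : Perm ((Fin m × Fin 3) × Bool) where
  toFun := sgfun σ
  invFun := sginv σ
  left_inv := by
    rintro ⟨⟨i, j⟩, s⟩
    fin_cases j <;> cases s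
    · rfl
    · rfl
    · change sginv σ (fst3 (σ (i, false)), false) = _
      rw [sginv_fst, Equiv.symm_apply_apply]; rfl
    · rfl
    · change sginv σ (fst3 (σ (i, true)), false) = _
      rw [sginv_fst, Equiv.symm_apply_apply]; rfl
    · rfl
  right_inv := by
    rintro ⟨⟨i, j⟩, s⟩
    fin_cases j <;> cases s
    · change sgfun σ (lst3 (σ.symm (i, false)), false) = _
      rw [sgfun_lst, Equiv.apply_symm_apply]; rfl
    · rfl
    · rfl
    · rfl
    · change sgfun σ (lst3 (σ.symm (i, true)), false) = _
      rw [sgfun_lst, Equiv.apply_symm_apply]; rfl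
    · rfl

/-- the half-edges of `H` in the order of the arcs of `red G` -/
def listX (m : ℕ) : List ((Fin m × Fin 3) × Bool) := (List.finRange m).flatMap fun i =>
  [((i, 0), false), ((i, 1), true), ((i, 0), true), ((i, 2), true), ((i, 1), false),
    ((i, 2), false)]

theorem arcs_red (G : PlaneGraph) :
    (red G).arcs = (listX G.m).map fun h => (nm h.1, nm (sg G.σ h).1) := by
  simp only [red, listX, List.map_flatMap]
  rfl

theorem nm_injective {m : ℕ} : Function.Injective (nm : Fin m × Fin 3 → Fin (3 * m)) := by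
  rintro ⟨i, j⟩ ⟨i', j'⟩ h
  simp only [nm, Fin.mk.injEq] at h
  have h1 : i.1 = i'.1 := by omega
  have h2 : j.1 = j'.1 := by omega
  exact Prod.ext (Fin.ext h1) (Fin.ext h2)

theorem mem_listX {m : ℕ} (h : (Fin m × Fin 3) × Bool) : h ∈ listX m := by
  rcases h with ⟨⟨i, j⟩, s⟩
  simp only [listX, List.mem_flatMap, List.mem_finRange, true_and]
  refine ⟨i, ?_⟩
  fin_cases j <;> cases s <;> simp

theorem nodup_listX (m : ℕ) : (listX m).Nodup := by
  rw [listX, List.nodup_flatMap]
  constructor
  · intro i _
    simp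
  · refine (List.nodup_finRange m).imp ?_
    intro i j hij
    simp only [Function.onFun, List.disjoint_left]
    intro h h1 h2
    apply hij
    have e1 : h.1.1 = i := by
      simp only [List.mem_cons, List.not_mem_nil, or_false] at h1
      rcases h1 with rfl | rfl | rfl | rfl | rfl | rfl <;> rfl
    have e2 : h.1.1 = j := by
      simp only [List.mem_cons, List.not_mem_nil, or_false] at h2
      rcases h2 with rfl | rfl | rfl | rfl | rfl | rfl <;> rfl
    rw [← e1, ← e2]

theorem length_red (G : PlaneGraph) : (red G).arcs.length = (listX G.m).length := by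
  exact (congrArg List.length (arcs_red G)).trans (List.length_map _)

/-- the bijection between arcs of `red G` and half-edges of `H` -/
noncomputable def idx (G : PlaneGraph) :
    Fin (red G).arcs.length ≃ (Fin G.m × Fin 3) × Bool :=
  open Classical in
  (finCongr (length_red G)).trans ((nodup_listX G.m).getEquivOfForallMemList _ mem_listX)

theorem idx_apply (G : PlaneGraph) (j : Fin (red G).arcs.length) :
    idx G j = (listX G.m)[j.1]'(by rw [← length_red]; exact j.2) := by
  simp [idx]

theorem get_red (G : PlaneGraph) (j : Fin (red G).arcs.length) :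
    (red G).arcs.get j = (nm (idx G j).1, nm (sg G.σ (idx G j)).1) := by
  rw [List.get_eq_getElem]
  have h : ∀ (l : List (Fin (3 * G.m) × Fin (3 * G.m))) (_ : l = (listX G.m).map fun h =>
      (nm h.1, nm (sg G.σ h).1)) (j : ℕ) (hj : j < l.length) (hj' : j < (listX G.m).length),
      l[j] = (nm ((listX G.m)[j]).1, nm (sg G.σ ((listX G.m)[j])).1) := by
    rintro l rfl j hj hj'
    simp
  rw [idx_apply]
  exact h _ (arcs_red G) _ _ _

theorem tail_idx (G : PlaneGraph) (j : Fin (red G).arcs.length) :
    (red G).tail j = nm (idx G j).1 := congrArg Prod.fst (get_red G j)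

theorem head_idx (G : PlaneGraph) (j : Fin (red G).arcs.length) :
    (red G).head j = nm (sg G.σ (idx G j)).1 := congrArg Prod.snd (get_red G j)

/-- exchanging the two halves of the edges in `F` -/
noncomputable def flipOn {E : Type} (F : Set E) : Perm (E × Bool) :=
  open Classical in
  { toFun := fun h => (h.1, if h.1 ∈ F then !h.2 else h.2)
    invFun := fun h => (h.1, if h.1 ∈ F then !h.2 else h.2)
    left_inv := by
      rintro ⟨e, s⟩
      by_cases h : e ∈ F <;> simp [h]
    right_inv := by
      rintro ⟨e, s⟩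
      by_cases h : e ∈ F <;> simp [h] }

theorem flipOn_of_mem {E : Type} {F : Set E} {e : E} (h : e ∈ F) (s : Bool) :
    flipOn F (e, s) = (e, !s) := by
  simp [flipOn, h]

theorem flipOn_of_notMem {E : Type} {F : Set E} {e : E} (h : e ∉ F) (s : Bool) :
    flipOn F (e, s) = (e, s) := by
  simp [flipOn, h]

theorem flipOn_univ {E : Type} : flipOn (Set.univ : Set E) = flip E := by
  ext ⟨e, s⟩ <;> simp [flipOn, flip]

theorem fst3_injective {m : ℕ} : Function.Injective (fst3 : Fin m × Bool → Fin m × Fin 3) := by
  rintro ⟨i, _ | _⟩ ⟨j, _ | _⟩ h <;> simp_all [fst3]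

theorem loopless_red (G : PlaneGraph) : (red G).Loopless := by
  intro j hj
  rw [tail_idx, head_idx] at hj
  have h := nm_injective hj
  generalize idx G j = x at h
  rcases x with ⟨⟨i, k⟩, s⟩
  fin_cases k <;> cases s
  · simp [sg, sgfun] at h
  · simp [sg, sgfun] at h
  · change (i, (1 : Fin 3)) = fst3 (G.σ (i, false)) at h
    generalize G.σ (i, false) = y at h
    rcases y with ⟨a, _ | _⟩ <;> simp [fst3] at h
  · simp [sg, sgfun] at h
  · change (i, (2 : Fin 3)) = fst3 (G.σ (i, true)) at h
    exact G.deg _ (fst3_injective (h.symm.trans (fst3_true i).symm))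
  · simp [sg, sgfun] at h

end Helper5.DCD
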