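import Pool.Agent.Helper5.DCD.Red
import Pool.Agent.Helper76.Prog6

/-!
The reduction is computed by a Turing machine in polynomial time.
-/

namespace Helper5.DCD

open Function Turing Computability Pool.Agent.Helper72 Pool.Agent.Helper4.Glue
open Pool.Agent.Helper76.Prog (Rn RnL S9)

namespace TT

theorem polyTime_of_prog {α β : Type} (ea : α → List Bool) (eb : β → List Bool) (g : α → β)
    (c : Cmd) (hok : c.ok = true) (o : ℕ) (T : ℕ → ℕ) (hT : PB T)
    (h : ∀ a, c.LB (T (ea a).length) (initSt 0 (ea a)) ∧
      c.eval (initSt 0 (ea a)) o = eb (g a)) :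
    Nonempty (TM2ComputableInPolyTime ea eb g) := by
  obtain ⟨M, f, hf, hmono, -, hM⟩ := outputs_aux c hok o
  obtain ⟨a, d, had⟩ := hf.comp (PB.id.add hT)
  refine ⟨{ toTM2ComputableAux := M
            time := Polynomial.C a * (Polynomial.X + 1) ^ d
            outputsFun := fun x => ?_ }⟩
  obtain ⟨h1, h2⟩ := h x
  have h5 := hM (ea x) _ h1
  rw [h2] at h5
  refine Classical.choice ?_
  obtain ⟨h6⟩ := h5
  refine ⟨⟨h6.toEvalsTo, h6.steps_le_m.trans ?_⟩⟩
  have := had (ea x).length
  simp only [Polynomial.eval_mul, Polynomial.eval_C, Polynomial.eval_pow, Polynomial.eval_add,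
    Polynomial.eval_X, Polynomial.eval_one]
  exact this

/-- the states of the run: rest of the input, mode, three times the number of edges read, number
of edges read, reversed output, second mode -/
def W (l m t i o q : List Bool) : St := S9 l m t i o [] [] q []

variable {L : ℕ}

theorem W0 (l m t i o q x : List Bool) : update (W l m t i o q) 0 x = W x m t i o q :=
  S9.u0 ..
theorem W1 (l m t i o q x : List Bool) : update (W l m t i o q) 1 x = W l x t i o q :=
  S9.u1 ..
theorem W2 (l m t i o q x : List Bool) : update (W l m t i o q) 2 x = W l m x i o q :=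
  S9.u2 ..
theorem W3 (l m t i o q x : List Bool) : update (W l m t i o q) 3 x = W l m t x o q :=
  S9.u3 ..
theorem W4 (l m t i o q x : List Bool) : update (W l m t i o q) 4 x = W l m t i x q :=
  S9.u4 ..
theorem W7 (l m t i o q x : List Bool) : update (W l m t i o q) 7 x = W l m t i o x :=
  S9.u7 ..

theorem push1 (l m t i o q : List Bool) (b : Bool) :
    Rn L (W l m t i o q) (.push 1 b) (W l (b :: m) t i o q) := ⟨trivial, W1 ..⟩
theorem push2 (l m t i o q : List Bool) (b : Bool) :
    Rn L (W l m t i o q) (.push 2 b) (W l m (b :: t) i o q) := ⟨trivial, W2 ..⟩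
theorem push3 (l m t i o q : List Bool) (b : Bool) :
    Rn L (W l m t i o q) (.push 3 b) (W l m t (b :: i) o q) := ⟨trivial, W3 ..⟩
theorem push4 (l m t i o q : List Bool) (b : Bool) :
    Rn L (W l m t i o q) (.push 4 b) (W l m t i (b :: o) q) := ⟨trivial, W4 ..⟩
theorem push7 (l m t i o q : List Bool) (b : Bool) :
    Rn L (W l m t i o q) (.push 7 b) (W l m t i o (b :: q)) := ⟨trivial, W7 ..⟩
theorem pop1 (l m t i o q : List Bool) (b : Bool) :
    Rn L (W l (b :: m) t i o q) (.pop 1) (W l m t i o q) := ⟨trivial, W1 ..⟩
theorem pop7 (l m t i o q : List Bool) (b : Bool) :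
    Rn L (W l m t i o (b :: q)) (.pop 7) (W l m t i o q) := ⟨trivial, W7 ..⟩

theorem ite_false' {r : ℕ} {c0 c1 c2 : Cmd} {s s' : St} {l : List Bool}
    (h : s r = false :: l) (h' : Rn L s c1 s') : Rn L s (.ite r c0 c1 c2) s' := by
  constructor
  · simp only [Cmd.LB, h]; exact h'.1
  · simp only [Cmd.eval, h]; exact h'.2

/-- emit bits and the content of register 2 -/
def em : List (Option Bool) → Cmd
  | [] => .nop
  | some b :: l => .seq (.push 4 b) (em l)
  | none :: l => .seq (Cmd.copy 2 4 5) (em l)

def emS (t : List Bool) : List (Option Bool) → List Bool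
  | [] => []
  | some b :: l => b :: emS t l
  | none :: l => t ++ emS t l

theorem em_run {k : ℕ} (hk : k ≤ L) (l m i q : List Bool) : ∀ (e : List (Option Bool))
    (o : List Bool), Rn L (W l m (un k) i o q) (em e)
      (W l m (un k) i ((emS (un k) e).reverse ++ o) q)
  | [], o => by
    simp only [emS, List.reverse_nil, List.nil_append]
    exact Rn.nop
  | some b :: e, o => by
    refine (push4 l m (un k) i o q b).seq ?_
    have := em_run hk l m i q e (b :: o)
    simpa [emS] using this
  | none :: e, o => by
    have h1 : Rn L (W l m (un k) i o q) (Cmd.copy 2 4 5) (W l m (un k) i (un k ++ o) q) := by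
      refine ⟨Cmd.LB_copy (by norm_num) (by norm_num) (by norm_num) rfl ?_, ?_⟩
      · show (un k).length ≤ L
        simpa using hk
      · rw [Cmd.eval_copy (by norm_num) (by norm_num) (by norm_num) rfl, W4]
        rfl
    refine h1.seq ?_
    have := em_run hk l m i q e (un k ++ o)
    simpa [emS] using this

theorem copy3 {k : ℕ} (hk : k ≤ L) (l m t o q : List Bool) :
    Rn L (W l m t (un k) o q) (Cmd.copy 3 4 5) (W l m t (un k) (un k ++ o) q) := by
  refine ⟨Cmd.LB_copy (by norm_num) (by norm_num) (by norm_num) rfl ?_, ?_⟩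
  · show (un k).length ≤ L
    simpa using hk
  · rw [Cmd.eval_copy (by norm_num) (by norm_num) (by norm_num) rfl, W4]
    rfl

/-- four arcs and the beginning of the fifth -/
def E1 : List (Option Bool) :=
  [some true, none, some false, none, some true, some false,
    some true, none, some true, some false, none, some false,
    some true, none, some false, none, some true, some true, some false,
    some true, none, some true, some true, some false, none, some true, some false,
    some true, none, some true, some false]

/-- beginning of the sixth arc -/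
def E2 : List (Option Bool) := [some true, none, some true, some true, some false]

def E3 : List (Option Bool) := [some false, none, some false]

def B0 (b : Bool) : Cmd :=
  if b then .seq (em E1) (.push 1 true)
  else .seq (em E3) (.seq (Cmd.copy 3 4 5) (em [some true, some true]))

def B2 (b : Bool) : Cmd :=
  if b then em [some true, some true, some true] else .seq (.pop 1) (.push 1 false)

def B1 (b : Bool) : Cmd :=
  .seq (if b then em [some true, some true] else em [])
    (.seq (.push 4 false)
      (.ite 7 (.seq (em E2) (.seq (.pop 1) (.seq (.push 1 true) (.push 7 true)))) .nop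
        (.seq (.pop 1) (.seq (.pop 7) (.seq (.push 2 true) (.seq (.push 2 true)
          (.seq (.push 2 true) (.push 3 true))))))))

def body (b : Bool) : Cmd := .ite 1 (B0 b) (B1 b) (B2 b)

def main : Cmd := .seq (.loop 0 (body false) (body true)) (Cmd.mv 4 8)

theorem main_ok : main.ok = true := by decide

/-- runs of the loop from the state `W l …` -/
def Go (L : ℕ) (l m t i o q : List Bool) (s : St) : Prop :=
  RnL L 0 (body false) (body true) l (W l m t i o q) s

theorem Go.step {b : Bool} {l m t i o q m' t' i' o' q' : List Bool} {s : St}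
    (h : Rn L (W l m t i o q) (body b) (W l m' t' i' o' q')) (h' : Go L l m' t' i' o' q' s) :
    Go L (b :: l) m t i o q s := by
  refine RnL.cons (s' := W l m' t' i' o' q') ?_ h'
  rw [W0]
  cases b
  · exact h
  · exact h

theorem un3 (i : ℕ) : true :: true :: true :: un (3 * i) = un (3 * (i + 1)) := by
  show _ = List.replicate (3 * i + 3) true
  simp [List.replicate_succ]

theorem un1 (i : ℕ) : true :: un i = un (i + 1) := by
  simp [List.replicate_succ]

theorem Go.unary {k : ℕ} (hk : k ≤ L) {l i q : List Bool} {s : St} : ∀ (j : ℕ) (o : List Bool),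
    Go L l [true] (un k) i (un (3 * j) ++ o) q s → Go L (un j ++ l) [true] (un k) i o q s
  | 0, o, h => by simpa using h
  | j + 1, o, h => by
    have e : un (j + 1) ++ l = true :: (un j ++ l) := by simp [List.replicate_succ]
    rw [e]
    refine Go.step (m' := [true]) (t' := un k) (i' := i) (o' := true :: true :: true :: o)
      (q' := q) ?_ (Go.unary hk j _ ?_)
    · refine Rn.ite_true (l := []) rfl ?_
      exact em_run hk _ _ _ _ [some true, some true, some true] o
    · have e2 : un (3 * j) ++ true :: true :: true :: o = un (3 * (j + 1)) ++ o := by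
        have : (true :: true :: true :: o) = un 3 ++ o := rfl
        rw [this, ← List.append_assoc, Pool.Agent.Helper76.Prog.un_append]
        rfl
      rw [e2]
      exact h

theorem Go.endun {l t i o q : List Bool} {s : St} (h : Go L l [false] t i o q s) :
    Go L (false :: l) [true] t i o q s := by
  refine Go.step ?_ h
  exact Rn.ite_true (l := []) rfl ((pop1 ..).seq (push1 ..))

/-- the number of bits for the sign -/
def sg2 (b : Bool) : List Bool := if b then [true, true] else []

theorem sgn_run {k : ℕ} (hk : k ≤ L) (b : Bool) (l m i q o : List Bool) :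
    Rn L (W l m (un k) i o q) (if b then em [some true, some true] else em [])
      (W l m (un k) i (sg2 b ++ o) q) := by
  cases b
  · exact em_run hk _ _ _ _ [] o
  · exact em_run hk _ _ _ _ [some true, some true] o

theorem Go.sgn1 {k : ℕ} (hk : k ≤ L) {b : Bool} {l i o : List Bool} {s : St}
    (h : Go L l [true] (un k) i ((emS (un k) E2).reverse ++ (false :: (sg2 b ++ o))) [true] s) :
    Go L (b :: l) [false] (un k) i o [] s := by
  refine Go.step ?_ h
  refine ite_false' (l := []) rfl ?_
  refine (sgn_run hk b _ _ _ _ _).seq ((push4 ..).seq (Rn.ite_nil rfl ?_))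
  exact (em_run hk _ _ _ _ E2 _).seq ((pop1 ..).seq ((push1 ..).seq (push7 ..)))

theorem Go.sgn2 {k : ℕ} (hk : k ≤ L) {b : Bool} {l i o : List Bool} {s : St}
    (h : Go L l [] (true :: true :: true :: un k) (true :: i) (false :: (sg2 b ++ o)) [] s) :
    Go L (b :: l) [false] (un k) i o [true] s := by
  refine Go.step ?_ h
  refine ite_false' (l := []) rfl ?_
  refine (sgn_run hk b _ _ _ _ _).seq ((push4 ..).seq (Rn.ite_true (l := []) rfl ?_))
  exact (pop1 ..).seq ((pop7 ..).seq ((push2 ..).seq ((push2 ..).seq ((push2 ..).seq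
    (push3 ..)))))

theorem Go.start {k : ℕ} (hk : k ≤ L) {l i o : List Bool} {s : St}
    (h : Go L l [true] (un k) i ((emS (un k) E1).reverse ++ o) [] s) :
    Go L (true :: l) [] (un k) i o [] s := by
  refine Go.step ?_ h
  refine Rn.ite_nil rfl ?_
  exact (em_run hk _ _ _ _ E1 _).seq (push1 ..)

theorem un_snoc (k : ℕ) (l : List Bool) : un k ++ true :: l = un (k + 1) ++ l := by
  have : (true :: l) = un 1 ++ l := rfl
  rw [this, ← List.append_assoc, Pool.Agent.Helper76.Prog.un_append]

/-- the end of the output -/
def tailOut (m : ℕ) : List Bool := false :: (un (3 * m) ++ false :: un (m + 2))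

theorem Go.fin {i : ℕ} (hk : 3 * i ≤ L) {o : List Bool} :
    Go L [false] [] (un (3 * i)) (un i) o []
      (W [] [] (un (3 * i)) (un i) ((tailOut i).reverse ++ o) []) := by
  refine Go.step (m' := []) (t' := un (3 * i)) (i' := un i) (q' := []) ?_ (RnL.nil _)
  refine Rn.ite_nil rfl ?_
  have h1 := em_run (L := L) hk [] [] (un i) [] E3 o
  have h2 := copy3 (L := L) (k := i) (by omega) [] [] (un (3 * i))
    ((emS (un (3 * i)) E3).reverse ++ o) []
  have h3 := em_run (L := L) hk [] [] (un i) [] [some true, some true]
    (un i ++ ((emS (un (3 * i)) E3).reverse ++ o))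
  have h4 := h1.seq (h2.seq h3)
  have e : (emS (un (3 * i)) [some true, some true]).reverse ++
      (un i ++ ((emS (un (3 * i)) E3).reverse ++ o)) = (tailOut i).reverse ++ o := by
    have e2 : (tailOut i).reverse = un (i + 2) ++ (false :: (un (3 * i) ++ [false])) := by
      simp [tailOut]
    rw [e2]
    simp only [emS, E3, List.reverse_append, List.reverse_cons, List.reverse_nil,
      List.reverse_replicate, List.append_assoc, List.cons_append, List.nil_append]
    rfl
  rw [e] at h4
  exact h4

/-! ### input and output -/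

/-- the data of an edge -/
abbrev Ed := (ℕ × Bool) × (ℕ × Bool)

def inE (e : Ed) : List Bool :=
  true :: ((un e.1.1 ++ [false, e.1.2]) ++ (un e.2.1 ++ [false, e.2.2]))

def arc (a b : ℕ) : List Bool := true :: (un a ++ false :: (un b ++ [false]))

def nv (d : ℕ × Bool) : ℕ := 3 * d.1 + if d.2 then 2 else 0

def outE (i : ℕ) (e : Ed) : List Bool :=
  arc (3 * i) (3 * i + 1) ++ (arc (3 * i + 1) (3 * i) ++ (arc (3 * i) (3 * i + 2) ++
    (arc (3 * i + 2) (3 * i + 1) ++ (arc (3 * i + 1) (nv e.1) ++ arc (3 * i + 2) (nv e.2)))))

def outs : ℕ → List Ed → List Bool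
  | _, [] => []
  | i, e :: l => outE i e ++ outs (i + 1) l

theorem nv_un (d : ℕ × Bool) : un (nv d) = un (3 * d.1) ++ sg2 d.2 := by
  rcases d with ⟨j, _ | _⟩
  · simp [nv, sg2]
  · have : sg2 true = un 2 := rfl
    rw [this, Pool.Agent.Helper76.Prog.un_append]
    simp [nv]

theorem sg2_rev (b : Bool) : (sg2 b).reverse = sg2 b := by cases b <;> rfl

theorem out_eq (i : ℕ) (e : Ed) (o : List Bool) :
    false :: (sg2 e.2.2 ++ (un (3 * e.2.1) ++ ((emS (un (3 * i)) E2).reverse ++
      (false :: (sg2 e.1.2 ++ (un (3 * e.1.1) ++ ((emS (un (3 * i)) E1).reverse ++ o))))))) =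
    (outE i e).reverse ++ o := by
  have key : emS (un (3 * i)) E1 ++ (un (3 * e.1.1) ++ (sg2 e.1.2 ++ (false ::
      (emS (un (3 * i)) E2 ++ (un (3 * e.2.1) ++ (sg2 e.2.2 ++ [false])))))) = outE i e := by
    simp only [outE, arc, nv_un, emS, E1, E2, un_snoc, List.cons_append, List.nil_append,
      List.append_assoc]
  rw [← key]
  simp only [List.reverse_append, List.reverse_cons, sg2_rev, List.reverse_replicate,
    List.append_assoc, List.cons_append, List.nil_append, List.reverse_nil]

theorem Go.edge {i : ℕ} (hk : 3 * i ≤ L) (e : Ed) {l o : List Bool} {s : St}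
    (h : Go L l [] (un (3 * (i + 1))) (un (i + 1)) ((outE i e).reverse ++ o) [] s) :
    Go L (inE e ++ l) [] (un (3 * i)) (un i) o [] s := by
  have e1 : inE e ++ l = true :: (un e.1.1 ++ (false :: (e.1.2 :: (un e.2.1 ++
      (false :: (e.2.2 :: l)))))) := by
    simp [inE]
  rw [e1]
  refine Go.start hk (Go.unary hk _ _ (Go.endun (Go.sgn1 hk (Go.unary hk _ _ (Go.endun
    (Go.sgn2 hk ?_))))))
  rw [un3, un1, out_eq]
  exact h

theorem Go.all : ∀ (l : List Ed) (i : ℕ) (o : List Bool), 3 * (i + l.length) ≤ L →
    Go L (l.flatMap inE ++ [false]) [] (un (3 * i)) (un i) o []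
      (W [] [] (un (3 * (i + l.length))) (un (i + l.length))
        ((outs i l ++ tailOut (i + l.length)).reverse ++ o) [])
  | [], i, o, h => by
    have := Go.fin (L := L) (i := i) (by simpa using h) (o := o)
    simpa [outs] using this
  | e :: l, i, o, h => by
    simp only [List.length_cons] at h
    rw [List.flatMap_cons, List.append_assoc]
    refine Go.edge (by omega) e ?_
    have := Go.all l (i + 1) ((outE i e).reverse ++ o) (by omega)
    have e1 : i + 1 + l.length = i + (e :: l).length := by
      simp only [List.length_cons]; omega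
    rw [e1] at this
    have e2 : (outs (i + 1) l ++ tailOut (i + (e :: l).length)).reverse ++
        ((outE i e).reverse ++ o) =
        (outs i (e :: l) ++ tailOut (i + (e :: l).length)).reverse ++ o := by
      simp [outs]
    rw [e2] at this
    exact this

theorem main_run (l : List Ed) (h1 : 3 * l.length ≤ L)
    (h2 : (outs 0 l ++ tailOut l.length).length ≤ L)
    (h3 : (l.flatMap inE ++ [false]).length ≤ L) :
    main.LB L (initSt 0 (l.flatMap inE ++ [false])) ∧
    main.eval (initSt 0 (l.flatMap inE ++ [false])) 8 = outs 0 l ++ tailOut l.length := by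
  have k1 := Go.all (L := L) l 0 [] (by simpa using h1)
  rw [Nat.zero_add, List.append_nil] at k1
  have k2 : Rn L (W (l.flatMap inE ++ [false]) [] [] [] [] []) (.loop 0 (body false) (body true))
      (W [] [] (un (3 * l.length)) (un l.length) (outs 0 l ++ tailOut l.length).reverse []) :=
    Rn.loop h3 k1
  have k3 : Rn L (W [] [] (un (3 * l.length)) (un l.length)
      (outs 0 l ++ tailOut l.length).reverse []) (Cmd.mv 4 8)
      (S9 [] [] (un (3 * l.length)) (un l.length) [] [] [] []
        (outs 0 l ++ tailOut l.length)) := by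
    refine ⟨Cmd.LB_mv (by norm_num) ?_, ?_⟩
    · show (outs 0 l ++ tailOut l.length).reverse.length ≤ L
      rw [List.length_reverse]; exact h2
    · rw [Cmd.eval_mv (by norm_num), W4]
      unfold W
      rw [S9.u8]
      show S9 _ _ _ _ _ _ _ _ ((outs 0 l ++ tailOut l.length).reverse.reverse ++ []) = _
      rw [List.reverse_reverse, List.append_nil]
  have k4 := k2.seq k3
  have e0 : initSt 0 (l.flatMap inE ++ [false]) = W (l.flatMap inE ++ [false]) [] [] [] [] [] :=
    S9.init _
  rw [e0]
  refine ⟨k4.1, ?_⟩
  have := congrFun k4.2 8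
  exact this

/-! ### lengths -/

theorem arc_len (a b : ℕ) : (arc a b).length = a + b + 3 := by
  simp [arc]; omega

theorem nv_le {d : ℕ × Bool} {B : ℕ} (h : d.1 ≤ B) : nv d ≤ 3 * B + 2 := by
  unfold nv
  split <;> omega

theorem outE_len {i B : ℕ} {e : Ed} (hi : i ≤ B) (h1 : e.1.1 ≤ B) (h2 : e.2.1 ≤ B) :
    (outE i e).length ≤ 36 * B + 33 := by
  simp only [outE, List.length_append, arc_len]
  have := nv_le h1
  have := nv_le h2
  omega

theorem outs_len {B : ℕ} : ∀ (l : List Ed) (i : ℕ), i + l.length ≤ B →
    (∀ e ∈ l, e.1.1 ≤ B ∧ e.2.1 ≤ B) → (outs i l).length ≤ l.length * (36 * B + 33)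
  | [], _, _, _ => by simp [outs]
  | e :: l, i, h, he => by
    simp only [List.length_cons] at h
    have h1 := outs_len l (i + 1) (by omega) fun e' h' => he e' (List.mem_cons_of_mem _ h')
    have h2 := he e List.mem_cons_self
    have h3 := outE_len (i := i) (B := B) (e := e) (by omega) h2.1 h2.2
    simp only [outs, List.length_append, List.length_cons]
    nlinarith

theorem in_len {e : Ed} : ∀ {l : List Ed}, e ∈ l → (inE e).length ≤ (l.flatMap inE).length
  | e' :: l, h => by
    rw [List.flatMap_cons, List.length_append]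
    rcases List.mem_cons.1 h with rfl | h
    · omega
    · have := in_len h
      omega

theorem len_in : ∀ l : List Ed, l.length ≤ (l.flatMap inE).length
  | [] => by simp
  | e :: l => by
    have := len_in l
    rw [List.flatMap_cons, List.length_append, List.length_cons]
    have : 1 ≤ (inE e).length := by simp [inE]
    omega

theorem total_len (l : List Ed) : (outs 0 l ++ tailOut l.length).length ≤
    40 * ((l.flatMap inE ++ [false]).length + 1) ^ 2 := by
  set B := (l.flatMap inE).length with hB
  have h1 : l.length ≤ B := len_in l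
  have h2 : (outs 0 l).length ≤ l.length * (36 * B + 33) := by
    refine outs_len l 0 (by omega) fun e he => ?_
    have := in_len he
    simp only [inE, List.length_cons, List.length_append, List.length_replicate,
      List.length_nil] at this
    omega
  have h3 : (tailOut l.length).length = 4 * l.length + 4 := by
    simp [tailOut]; omega
  have h4 : (l.flatMap inE ++ [false]).length = B + 1 := by simp [hB]
  rw [List.length_append, h3, h4]
  have h5 : l.length * (36 * B + 33) ≤ B * (36 * B + 33) := Nat.mul_le_mul_right _ h1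
  nlinarith

/-! ### plane graphs -/

/-- the data of the edges -/
def eds (G : PlaneGraph) (i : Fin G.m) : Ed :=
  (((G.σ (i, false)).1.1, (G.σ (i, false)).2), ((G.σ (i, true)).1.1, (G.σ (i, true)).2))

theorem code_eq (G : PlaneGraph) :
    G.code = ((List.finRange G.m).map (eds G)).flatMap inE ++ [false] := by
  rw [List.flatMap_map]
  rfl

theorem outs_finRange : ∀ (n : ℕ) (f : Fin n → Ed) (k : ℕ),
    outs k ((List.finRange n).map f) =
      (List.finRange n).flatMap fun i : Fin n => outE (k + i) (f i)
  | 0, f, k => by simp [outs]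
  | n + 1, f, k => by
    rw [List.finRange_succ, List.map_cons, outs, List.map_map, outs_finRange n (f ∘ Fin.succ),
      List.flatMap_cons, List.flatMap_map]
    congr 1
    refine List.flatMap_congr fun i _ => ?_
    simp only [Function.comp, Fin.val_succ]
    congr 1
    omega

theorem nm_fst3 {m : ℕ} (d : Fin m × Bool) : ((nm (fst3 d) : Fin (3 * m)) : ℕ) =
    nv (d.1.1, d.2) := by
  rcases d with ⟨j, _ | _⟩ <;> simp [nm, fst3, nv]

theorem code_red (G : PlaneGraph) : (red G).code =
    outs 0 ((List.finRange G.m).map (eds G)) ++ tailOut ((List.finRange G.m).map (eds G)).length := by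
  rw [outs_finRange, List.length_map, List.length_finRange]
  show ((List.finRange G.m).flatMap _).flatMap _ ++ _ = _
  rw [List.flatMap_assoc]
  congr 1
  refine List.flatMap_congr fun i _ => ?_
  change List.flatMap (fun a : Fin (3 * G.m) × Fin (3 * G.m) => arc a.1 a.2)
    [(nm (i, 0), nm (i, 1)), (nm (i, 1), nm (i, 0)), (nm (i, 0), nm (i, 2)),
      (nm (i, 2), nm (i, 1)), (nm (i, 1), nm (fst3 (G.σ (i, false)))),
      (nm (i, 2), nm (fst3 (G.σ (i, true))))] = _
  simp only [List.flatMap_cons, List.flatMap_nil, List.append_nil, nm_fst3, outE, eds,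
    Nat.zero_add]
  rfl

end TT

/-- The reduction is computed by a Turing machine in polynomial time. -/
theorem polyTime_red : Nonempty (TM2ComputableInPolyTime PlaneGraph.code DInst.code red) := by
  refine TT.polyTime_of_prog _ _ _ TT.main TT.main_ok 8 (fun n => 40 * (n + 1) ^ 2)
    ⟨40, 2, fun n => le_rfl⟩ fun G => ?_
  rw [TT.code_eq, TT.code_red]
  set l := (List.finRange G.m).map (TT.eds G)
  refine TT.main_run l ?_ (TT.total_len l) ?_
  · have h1 := TT.len_in l
    have h2 : (l.flatMap TT.inE ++ [false]).length = (l.flatMap TT.inE).length + 1 := by simp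
    rw [h2]
    nlinarith
  · nlinarith [Nat.zero_le (l.flatMap TT.inE ++ [false]).length]

end Helper5.DCD
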